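import Pool.Agent.H69.Kk.Two

set_option autoImplicit false
open Set Filter Topology MeasureTheory
open scoped ENNReal

namespace Pool.Agent.H69.Kk.Pl

/-- one variable: at most one null slice -/
theorem one {a : (Fin 1 → ℝ) → Fin 1 → ℝ} {p q : Fin 1 → ℝ} (hpq : ∀ i, p i < q i)
    (ha : ContinuousOn a (Icc p q)) {t0 t : ℝ} (ht0 : t ≠ t0)
    (h0 : volume (Img a p q t0) = 0) : volume (Img a p q t) ≠ 0 := by
  have hle : p ≤ q := fun i => (hpq i).le
  have key : ∀ s, ENNReal.ofReal |(a q 0 - a p 0) + s * (q 0 - p 0)| ≤ volume (Img a p q s) := by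
    intro s
    have h1 := Cont.continua (fun _ : Fin 1 => Img a p q s) (fun _ => Img_compact ha s)
      (fun _ => (show IsConnected (Icc p q) from ⟨⟨p, left_mem_Icc.2 hle⟩,
        (convex_Icc p q).isPreconnected⟩).image _ (ha.add (by fun_prop)))
      (fun _ => a p + s • p) (fun _ => a q + s • q) (fun _ => ⟨p, left_mem_Icc.2 hle, rfl⟩)
      (fun _ => ⟨q, right_mem_Icc.2 hle, rfl⟩)
    have e : Cont.sumset (fun _ : Fin 1 => Img a p q s) = Img a p q s := by
      ext z
      constructor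
      · rintro ⟨w, hw, rfl⟩
        simpa using hw 0
      · intro hz
        exact ⟨fun _ => z, fun _ => hz, by simp⟩
    rw [e] at h1
    convert h1 using 3
    rw [Matrix.det_fin_one]
    simp only [Cont.mat, Pi.sub_apply, Pi.add_apply, Pi.smul_apply, smul_eq_mul]
    ring
  intro h
  have k0 := key t0
  have k1 := key t
  rw [h0, nonpos_iff_eq_zero, ENNReal.ofReal_eq_zero] at k0
  rw [h, nonpos_iff_eq_zero, ENNReal.ofReal_eq_zero] at k1
  have e0 := abs_eq_zero.1 (le_antisymm k0 (abs_nonneg _))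
  have e1 := abs_eq_zero.1 (le_antisymm k1 (abs_nonneg _))
  have e2 : (t - t0) * (q 0 - p 0) = 0 := by linarith
  rcases mul_eq_zero.1 e2 with h' | h'
  · exact ht0 (by linarith)
  · have := hpq 0
    linarith

variable {m l : ℕ}

/-- the first `m` coordinates -/
def lft (v : Fin (m + l) → ℝ) : Fin m → ℝ := fun i => v (Fin.castAdd l i)

/-- the last `l` coordinates -/
def rgt (v : Fin (m + l) → ℝ) : Fin l → ℝ := fun i => v (Fin.natAdd m i)

theorem lft_append (u : Fin m → ℝ) (w : Fin l → ℝ) : lft (Fin.append u w) = u := by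
  funext i; simp [lft]

theorem rgt_append (u : Fin m → ℝ) (w : Fin l → ℝ) : rgt (Fin.append u w) = w := by
  funext i; simp [rgt]

theorem append_lft_rgt (v : Fin (m + l) → ℝ) : Fin.append (lft v) (rgt v) = v := by
  funext i
  refine Fin.addCases (fun i => ?_) (fun i => ?_) i
  · rw [Fin.append_left]; rfl
  · rw [Fin.append_right]; rfl

theorem append_mem {p q : Fin (m + l) → ℝ} {u : Fin m → ℝ} {w : Fin l → ℝ}
    (hu : u ∈ Icc (lft p) (lft q)) (hw : w ∈ Icc (rgt p) (rgt q)) :
    Fin.append u w ∈ Icc p q := by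
  constructor
  · intro i
    refine Fin.addCases (fun i => ?_) (fun i => ?_) i
    · rw [Fin.append_left]; exact hu.1 i
    · rw [Fin.append_right]; exact hw.1 i
  · intro i
    refine Fin.addCases (fun i => ?_) (fun i => ?_) i
    · rw [Fin.append_left]; exact hu.2 i
    · rw [Fin.append_right]; exact hw.2 i

theorem append_continuous :
    Continuous fun z : (Fin m → ℝ) × (Fin l → ℝ) => Fin.append z.1 z.2 := by
  refine continuous_pi fun i => ?_
  refine Fin.addCases (fun i => ?_) (fun i => ?_) i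
  · simp only [Fin.append_left]
    exact (continuous_apply i).comp continuous_fst
  · simp only [Fin.append_right]
    exact (continuous_apply i).comp continuous_snd

/-- the splitting of the space -/
def spl (m l : ℕ) : (Fin (m + l) → ℝ) ≃ᵐ (Fin m → ℝ) × (Fin l → ℝ) :=
  (MeasurableEquiv.piCongrLeft (fun _ => ℝ) finSumFinEquiv).symm.trans
    (MeasurableEquiv.sumPiEquivProdPi fun _ => ℝ)

theorem spl_pres (m l : ℕ) : MeasurePreserving (spl m l) volume volume :=
  (volume_measurePreserving_sumPiEquivProdPi (fun _ : Fin m ⊕ Fin l => ℝ)).comp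
    (volume_measurePreserving_piCongrLeft (fun _ => ℝ) finSumFinEquiv).symm

theorem spl_append (u : Fin m → ℝ) (w : Fin l → ℝ) : spl m l (Fin.append u w) = (u, w) := by
  refine Prod.ext ?_ ?_
  · funext i
    show Fin.append u w (finSumFinEquiv (Sum.inl i)) = u i
    simp
  · funext i
    show Fin.append u w (finSumFinEquiv (Sum.inr i)) = w i
    simp

theorem fubini_lower {S : Set (Fin (m + l) → ℝ)} (hS : MeasurableSet S) {E : Set (Fin m → ℝ)}
    (hE : MeasurableSet E) (c : ℝ≥0∞)
    (h : ∀ x ∈ E, c ≤ volume {y : Fin l → ℝ | Fin.append x y ∈ S}) :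
    c * volume E ≤ volume S := by
  have h1 : volume ((spl m l).symm ⁻¹' S) = volume S :=
    ((spl_pres m l).symm _).measure_preimage_equiv S
  have h2 : MeasurableSet ((spl m l).symm ⁻¹' S) := (spl m l).symm.measurable hS
  rw [← h1]
  have h3 : volume ((spl m l).symm ⁻¹' S) =
      ∫⁻ x, volume (Prod.mk x ⁻¹' ((spl m l).symm ⁻¹' S)) := Measure.prod_apply h2
  rw [h3, ← setLIntegral_const]
  refine (setLIntegral_mono' hE fun x hx => ?_).trans (setLIntegral_le_lintegral _ _)
  refine (h x hx).trans (measure_mono fun y hy => ?_)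
  show (spl m l).symm (x, y) ∈ S
  rw [← spl_append, MeasurableEquiv.symm_apply_apply]
  exact hy

theorem subbox {m : ℕ} {p q v : Fin m → ℝ} (hpq : ∀ i, p i < q i) (hv : v ∈ Icc p q) {ε : ℝ}
    (hε : 0 < ε) : ∃ r s : Fin m → ℚ, (∀ i, (r i : ℝ) < s i) ∧
      Icc (fun i => (r i : ℝ)) (fun i => (s i : ℝ)) ⊆ Icc p q ∩ Metric.ball v ε := by
  have h : ∀ i, max (p i) (v i - ε / 2) < min (q i) (v i + ε / 2) := by
    intro i
    have h1 := hv.1 i
    have h2 := hv.2 i
    refine max_lt (lt_min (hpq i) ?_) (lt_min ?_ (by linarith))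
    · linarith
    · linarith
  choose r hr1 hr2 using fun i => exists_rat_btwn (h i)
  choose s hs1 hs2 using fun i => exists_rat_btwn (hr2 i)
  refine ⟨r, s, hs1, fun w hw => ⟨⟨fun i => ?_, fun i => ?_⟩, ?_⟩⟩
  · exact ((le_max_left _ _).trans (hr1 i).le).trans (hw.1 i)
  · exact (hw.2 i).trans ((hs2 i).le.trans (min_le_left _ _))
  · rw [Metric.mem_ball]
    refine lt_of_le_of_lt ((dist_pi_le_iff (by positivity)).2 fun i => ?_) (half_lt_self hε)
    have h1 := ((le_max_right _ _).trans (hr1 i).le).trans (hw.1 i)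
    have h2 := (hw.2 i).trans ((hs2 i).le.trans (min_le_right _ _))
    rw [Real.dist_eq, abs_le]
    constructor <;> linarith

/-- upper semicontinuity of the volume of the fibre -/
theorem usc {Q : Set (Fin m → ℝ)} (hQ : IsClosed Q) (hQc : IsCompact Q) {R : Set (Fin l → ℝ)}
    (hR : IsCompact R) {h : (Fin m → ℝ) × (Fin l → ℝ) → (Fin l → ℝ)}
    (hh : ContinuousOn h (Q ×ˢ R)) (c : ℝ≥0∞) :
    IsClosed {u | u ∈ Q ∧ c ≤ volume ((fun w => h (u, w)) '' R)} := by
  refine IsSeqClosed.isClosed fun x u hx hu => ?_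
  have huQ : u ∈ Q := hQ.mem_of_tendsto hu (Eventually.of_forall fun n => (hx n).1)
  refine ⟨huQ, ?_⟩
  have hcu : ContinuousOn (fun w => h (u, w)) R :=
    hh.comp (by fun_prop) fun w hw => ⟨huQ, hw⟩
  have hS : IsCompact ((fun w => h (u, w)) '' R) := hR.image_of_continuousOn hcu
  have huc := (hQc.prod hR).uniformContinuousOn_of_continuous hh
  rw [Metric.uniformContinuousOn_iff] at huc
  have key : ∀ δ : ℝ, 0 < δ → c ≤ volume (Metric.cthickening δ ((fun w => h (u, w)) '' R)) := by
    intro δ hδ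
    obtain ⟨η, hη, hη'⟩ := huc δ hδ
    obtain ⟨n, hn⟩ := (Metric.tendsto_atTop.1 hu) η hη
    refine (hx n).2.trans (measure_mono ?_)
    rintro _ ⟨w, hw, rfl⟩
    refine Metric.mem_cthickening_of_dist_le _ (h (u, w)) _ _ ⟨w, hw, rfl⟩ ?_
    refine (hη' (x n, w) ⟨(hx n).1, hw⟩ (u, w) ⟨huQ, hw⟩ ?_).le
    rw [Prod.dist_eq, dist_self]
    exact max_lt (hn n le_rfl) hη
  have lim := tendsto_measure_cthickening_of_isCompact (μ := (volume : Measure (Fin l → ℝ))) hS
  refine ge_of_tendsto (lim.mono_left (nhdsWithin_le_nhds (s := Ioi (0 : ℝ)))) ?_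
  filter_upwards [self_mem_nhdsWithin] with δ hδ
  exact key δ hδ

end Pool.Agent.H69.Kk.Pl
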