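import Mathlib

set_option autoImplicit false
open MeasureTheory Set
open scoped ENNReal

namespace Pool.Agent.H69.Kk

/-- The point of `ℝ^(d+1)` at the height `t` (first coordinate) over `x ∈ ℝ^d`. -/
def pt {d : ℕ} (t : ℝ) (x : Fin d → ℝ) : EuclideanSpace ℝ (Fin (d + 1)) :=
  WithLp.toLp 2 (Fin.cons t x : Fin (d + 1) → ℝ)

/-- The slice of `K ⊆ ℝ^(d+1)` at the height `t`, a subset of `ℝ^d`. -/
def slice {d : ℕ} (K : Set (EuclideanSpace ℝ (Fin (d + 1)))) (t : ℝ) : Set (Fin d → ℝ) :=
  {x | pt t x ∈ K}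

theorem pt_preserving (d : ℕ) :
    MeasurePreserving (fun p : ℝ × (Fin d → ℝ) => pt p.1 p.2) (volume.prod volume) volume := by
  have h1 := (volume_preserving_piFinSuccAbove (fun _ : Fin (d + 1) => ℝ) 0).symm
  have h2 := PiLp.volume_preserving_toLp (Fin (d + 1))
  have h3 := h2.comp h1
  have e : (fun p : ℝ × (Fin d → ℝ) => pt p.1 p.2) =
      WithLp.toLp 2 ∘ ⇑(MeasurableEquiv.piFinSuccAbove (fun _ : Fin (d + 1) => ℝ) 0).symm := by
    funext p
    simp only [pt, Function.comp]
    congr 1
    funext j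
    refine Fin.cases ?_ (fun i => ?_) j <;>
      simp [MeasurableEquiv.piFinSuccAbove, Fin.insertNthEquiv]
  rw [e]
  exact h3

theorem pt_continuous (d : ℕ) : Continuous fun p : ℝ × (Fin d → ℝ) => pt p.1 p.2 := by
  unfold pt
  refine (PiLp.continuous_toLp 2 _).comp ?_
  exact Continuous.finCons continuous_fst continuous_snd

/-- lower bounds for the slices give lower bounds for the volume -/
theorem slices {d : ℕ} (K : Set (EuclideanSpace ℝ (Fin (d + 1)))) (T : Set ℝ)
    (hT : MeasurableSet T) (φ : ℝ → ℝ≥0∞) (h : ∀ t ∈ T, φ t ≤ volume (slice K t)) :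
    ∫⁻ t in T, φ t ≤ volume K := by
  have hm := measurableSet_toMeasurable volume K
  have hs : K ⊆ toMeasurable volume K := subset_toMeasurable volume K
  rw [← measure_toMeasurable K, ← (pt_preserving d).measure_preimage hm.nullMeasurableSet,
    Measure.prod_apply ((pt_preserving d).measurable hm)]
  calc ∫⁻ t in T, φ t ≤ ∫⁻ t in T, volume (slice (toMeasurable volume K) t) :=
        setLIntegral_mono' hT fun t ht => (h t ht).trans (measure_mono fun x hx => hs hx)
    _ ≤ ∫⁻ t, volume (slice (toMeasurable volume K) t) := setLIntegral_le_lintegral _ _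

theorem dimH_of_volume {n : ℕ} (K : Set (EuclideanSpace ℝ (Fin n))) (h : volume K ≠ 0) :
    dimH K = n := by
  refine le_antisymm ?_ ?_
  · have := dimH_mono (subset_univ K)
    rwa [Real.dimH_univ_eq_finrank, finrank_euclideanSpace_fin] at this
  · have e : (volume : Measure (EuclideanSpace ℝ (Fin n))) =
        volume.addHaarScalarFactor (Measure.hausdorffMeasure
          (Module.finrank ℝ (EuclideanSpace ℝ (Fin n)) : ℝ)) •
          Measure.hausdorffMeasure (Module.finrank ℝ (EuclideanSpace ℝ (Fin n)) : ℝ) :=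
      Measure.isAddLeftInvariant_eq_smul _ _
    have h2 : Measure.hausdorffMeasure (Module.finrank ℝ (EuclideanSpace ℝ (Fin n)) : ℝ) K ≠ 0 := by
      intro h0
      apply h
      rw [e, Measure.smul_apply, h0, smul_zero]
    have h3 : Measure.hausdorffMeasure ((n : NNReal) : ℝ) K ≠ 0 := by
      simpa [finrank_euclideanSpace_fin] using h2
    have := le_dimH_of_hausdorffMeasure_ne_zero h3
    simpa using this

end Pool.Agent.H69.Kk
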