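import Pool.Agent.H69.Kk.Blocks
import Pool.Agent.H69.Kk.Slice

set_option autoImplicit false
open Set Filter Topology MeasureTheory
open scoped ENNReal

namespace Pool.Agent.H69.Kk.Pl

/-- at most `N` null slices -/
def FewNull {l : ℕ} (N : ℕ) (b : (Fin l → ℝ) → Fin l → ℝ) (r s : Fin l → ℝ) : Prop :=
  ∀ T : Finset ℝ, N < T.card → ∃ t ∈ T, volume (Img b r s t) ≠ 0

theorem FewNull.mono {l N N' : ℕ} {b : (Fin l → ℝ) → Fin l → ℝ} {r s : Fin l → ℝ}
    (h : FewNull N b r s) (hN : N ≤ N') : FewNull N' b r s := fun T hT => h T (by omega)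

theorem few_small {l : ℕ} (hl : 0 < l) (hl2 : l ≤ 2) {b : (Fin l → ℝ) → Fin l → ℝ}
    {r s : Fin l → ℝ} (hrs : ∀ i, r i < s i) (hb : ContinuousOn b (Icc r s)) :
    FewNull 2 b r s := by
  intro T hT
  obtain ⟨t0, h0, t1, h1, t2, h2, h01, h02, h12⟩ := Finset.two_lt_card.1 hT
  by_contra hcon
  push Not at hcon
  obtain rfl | rfl : l = 1 ∨ l = 2 := by omega
  · exact one hrs hb h01.symm (hcon t0 h0) (hcon t1 h1)
  · exact two hrs hb h01 h02.symm h12.symm (hcon t0 h0) (hcon t1 h1) (hcon t2 h2)

/-- additively separable maps -/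
theorem few_sep {l : ℕ} {b : (Fin l → ℝ) → Fin l → ℝ} {r s : Fin l → ℝ}
    (hrs : ∀ i, r i < s i) (hb : ContinuousOn b (Icc r s)) (c : Fin l → ℝ → Fin l → ℝ)
    (hc : ∀ w ∈ Icc r s, b w = ∑ j, c j (w j)) : FewNull l b r s := by
  classical
  have hle : ∀ i, r i ≤ s i := fun i => (hrs i).le
  have hupd : ∀ (j : Fin l), ∀ x ∈ Icc (r j) (s j), Function.update r j x ∈ Icc r s := by
    intro j x hx
    constructor <;> intro i <;> by_cases hij : i = j
    · subst hij; simpa using hx.1
    · simp [Function.update_of_ne hij]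
    · subst hij; simpa using hx.2
    · simpa [Function.update_of_ne hij] using hle i
  have hcc : ∀ j, ContinuousOn (c j) (Icc (r j) (s j)) := by
    intro j
    have h1 : ContinuousOn (fun x => b (Function.update r j x) - b r + c j (r j))
        (Icc (r j) (s j)) := by
      have h2 : Continuous fun x : ℝ => Function.update r j x :=
        continuous_const.update j continuous_id
      exact ((hb.comp h2.continuousOn fun x hx => hupd j x hx).sub continuousOn_const).add
        continuousOn_const
    refine h1.congr fun x hx => ?_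
    have e1 := hc _ (hupd j x hx)
    have e2 := hc r ⟨le_rfl, hle⟩
    have e3 : ∑ i, c i (Function.update r j x i) = c j x + ∑ i ∈ Finset.univ.erase j, c i (r i) := by
      rw [← Finset.add_sum_erase _ _ (Finset.mem_univ j), Function.update_self]
      congr 1
      refine Finset.sum_congr rfl fun i hi => ?_
      rw [Function.update_of_ne (Finset.ne_of_mem_erase hi)]
    have e4 : ∑ i, c i (r i) = c j (r j) + ∑ i ∈ Finset.univ.erase j, c i (r i) :=
      (Finset.add_sum_erase _ _ (Finset.mem_univ j)).symm
    show c j x = b (Function.update r j x) - b r + c j (r j)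
    rw [e1, e2, e3, e4]
    abel
  have hcs : ∀ (t : ℝ) (j : Fin l), ContinuousOn (fun x : ℝ => c j x + Pi.single j (t * x))
      (Icc (r j) (s j)) := by
    intro t j
    have h2 : Continuous fun x : ℝ => (Pi.single j (t * x) : Fin l → ℝ) :=
      (continuous_single j).comp (continuous_const.mul continuous_id)
    exact (hcc j).add h2.continuousOn
  intro T hT
  by_contra hcon
  push Not at hcon
  let D : Matrix (Fin l) (Fin l) ℝ := Matrix.of fun i j => c j (s j) i - c j (r j) i
  let B : Matrix (Fin l) (Fin l) ℝ := Matrix.diagonal fun j => s j - r j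
  let P : Polynomial ℝ := Matrix.det ((Polynomial.X : Polynomial ℝ) • B.map Polynomial.C +
    D.map Polynomial.C)
  have hPe : ∀ t, P.eval t = (t • B + D).det := by
    intro t
    simp only [P]
    rw [← Polynomial.coe_evalRingHom, RingHom.map_det]
    congr 1
    ext i j
    simp only [RingHom.mapMatrix_apply, Matrix.map_apply, Matrix.add_apply, Matrix.smul_apply,
      smul_eq_mul, map_add, Polynomial.coe_evalRingHom, Polynomial.eval_C, Polynomial.eval_mul,
      Polynomial.eval_X]
  have hdeg : P.natDegree ≤ l := by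
    simpa using Polynomial.natDegree_det_X_add_C_le B D
  have hco : P.coeff l = B.det := by
    simpa using Polynomial.coeff_det_X_add_C_card B D
  have hB : B.det ≠ 0 := by
    simp only [B, Matrix.det_diagonal]
    exact Finset.prod_ne_zero_iff.2 fun i _ => (sub_pos.2 (hrs i)).ne'
  have hroot : ∀ t ∈ T, P.eval t = 0 := by
    intro t ht
    have h1 := Cont.continua (fun j : Fin l => (fun x => c j x + Pi.single j (t * x)) ''
      Icc (r j) (s j)) (fun j => isCompact_Icc.image_of_continuousOn (hcs t j))
      (fun j => (isConnected_Icc (hle j)).image _ (hcs t j))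
      (fun j => c j (r j) + Pi.single j (t * r j)) (fun j => c j (s j) + Pi.single j (t * s j))
      (fun j => ⟨r j, left_mem_Icc.2 (hle j), rfl⟩) (fun j => ⟨s j, right_mem_Icc.2 (hle j), rfl⟩)
    have h2 : Cont.sumset (fun j : Fin l => (fun x => c j x + Pi.single j (t * x)) ''
        Icc (r j) (s j)) ⊆ Img b r s t := by
      rintro _ ⟨z, hz, rfl⟩
      choose x hx hx' using hz
      have hxm : x ∈ Icc r s := ⟨fun i => (hx i).1, fun i => (hx i).2⟩
      refine ⟨x, hxm, ?_⟩
      show b x + t • x = ∑ i, z i
      rw [hc x hxm]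
      have e3 : t • x = ∑ i, (Pi.single i (t * x i) : Fin l → ℝ) := by
        rw [Finset.univ_sum_single]; rfl
      rw [e3, ← Finset.sum_add_distrib]
      exact Finset.sum_congr rfl fun i _ => hx' i
    have h3 := h1.trans (measure_mono h2)
    rw [hcon t ht, nonpos_iff_eq_zero, ENNReal.ofReal_eq_zero] at h3
    have h4 := abs_eq_zero.1 (le_antisymm h3 (abs_nonneg _))
    rw [hPe, ← h4]
    congr 1
    ext i j
    simp only [B, D, Cont.mat, Matrix.add_apply, Matrix.smul_apply, Matrix.diagonal_apply,
      smul_eq_mul, Matrix.of_apply, Pi.sub_apply, Pi.add_apply, Pi.single_apply]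
    by_cases hij : i = j
    · subst hij; simp; ring
    · simp [hij]
  have hP0 : P = 0 := Polynomial.eq_zero_of_natDegree_lt_card_of_eval_eq_zero' P T hroot
    (hdeg.trans_lt hT)
  rw [hP0, Polynomial.coeff_zero] at hco
  exact hB hco.symm

end Pool.Agent.H69.Kk.Pl
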