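import Pool.Agent.H69.Kk.Chain

set_option autoImplicit false
open Set Filter Topology MeasureTheory
open scoped ENNReal

namespace Pool.Agent.H69.Kk.Pl

variable {m l : ℕ}

theorem ext_few {a : (Fin (m + l) → ℝ) → Fin (m + l) → ℝ} {p q : Fin (m + l) → ℝ}
    (hpq : ∀ i, p i < q i) (ha : ContinuousOn a (Icc p q))
    (hcut : ∀ v ∈ Icc p q, ∀ w ∈ Icc p q, lft v = lft w → lft (a v) = lft (a w))
    (hbase : ∀ r s : Fin m → ℝ, (∀ i, r i < s i) → Icc r s ⊆ Icc (lft p) (lft q) →
      {t | volume (Img (fun u => lft (a (Fin.append u (rgt p)))) r s t) = 0}.Countable)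
    {N : ℕ} (hfib : ∀ u ∈ Icc (lft p) (lft q),
      FewNull N (fun w => rgt (a (Fin.append u w))) (rgt p) (rgt q)) :
    {t | volume (Img a p q t) = 0}.Countable := by
  classical
  set B : Set (Fin m → ℝ) := Icc (lft p) (lft q) with hB
  set R : Set (Fin l → ℝ) := Icc (rgt p) (rgt q) with hR
  have hlpq : ∀ i, lft p i < lft q i := fun i => hpq _
  have hrpq : ∀ i, rgt p i < rgt q i := fun i => hpq _
  let μ : ℝ → (Fin m → ℝ) → ℝ≥0∞ := fun t u =>
    volume (Img (fun w => rgt (a (Fin.append u w))) (rgt p) (rgt q) t)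
  have hh : ∀ t : ℝ, ContinuousOn (fun z : (Fin m → ℝ) × (Fin l → ℝ) =>
      rgt (a (Fin.append z.1 z.2)) + t • z.2) (B ×ˢ R) := by
    intro t
    have h1 : ContinuousOn (fun z : (Fin m → ℝ) × (Fin l → ℝ) => a (Fin.append z.1 z.2))
        (B ×ˢ R) := ha.comp append_continuous.continuousOn fun z hz => append_mem hz.1 hz.2
    have h2 : ContinuousOn (fun z : (Fin m → ℝ) × (Fin l → ℝ) => rgt (a (Fin.append z.1 z.2)))
        (B ×ˢ R) := continuousOn_pi.2 fun i => (continuous_apply _).comp_continuousOn h1
    exact h2.add (by fun_prop)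
  have husc : ∀ (t : ℝ) (Q : Set (Fin m → ℝ)), IsClosed Q → IsCompact Q → Q ⊆ B →
      ∀ c, IsClosed {u | u ∈ Q ∧ c ≤ μ t u} := fun t Q hQ hQc hQB c =>
    usc hQ hQc isCompact_Icc ((hh t).mono (prod_mono hQB subset_rfl)) c
  let D : Set ℝ := {t | ∀ U : Set (Fin m → ℝ), IsOpen U → (U ∩ B).Nonempty →
    ∃ u ∈ U ∩ B, μ t u = 0}
  -- `D` has at most `N` elements
  have hD : D.Countable := by
    refine Set.Finite.countable ?_
    by_contra hinf
    obtain ⟨T, hTD, hTc⟩ := Set.Infinite.exists_subset_card_eq hinf (N + 1)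
    have hBne : Nonempty B := ⟨⟨lft p, left_mem_Icc.2 fun i => (hlpq i).le⟩⟩
    have : CompactSpace B := isCompact_iff_compactSpace.1 isCompact_Icc
    let O : T × ℕ → Set B := fun j => {u | μ j.1 u < (j.2 + 1 : ℝ≥0∞)⁻¹}
    have hO : ∀ j, IsOpen (O j) := by
      intro j
      have hc := husc j.1 B isClosed_Icc isCompact_Icc subset_rfl ((j.2 + 1 : ℝ≥0∞)⁻¹)
      have hc' := hc.preimage (continuous_subtype_val (p := fun u => u ∈ B))
      rw [← isOpen_compl_iff] at hc'
      convert hc' using 1
      ext u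
      simp [O, not_le]
    have hOd : ∀ j, Dense (O j) := by
      intro j
      rw [dense_iff_inter_open]
      intro U hU hUn
      obtain ⟨U', hU', rfl⟩ := isOpen_induced_iff.1 hU
      obtain ⟨x, hx⟩ := hUn
      obtain ⟨u, hu, hu'⟩ := hTD j.1.2 U' hU' ⟨x, hx, x.2⟩
      refine ⟨⟨u, hu.2⟩, hu.1, ?_⟩
      show μ j.1 u < _
      rw [hu']
      simp
    obtain ⟨x, hx⟩ := (dense_iInter_of_isOpen hO hOd).nonempty
    rw [mem_iInter] at hx
    obtain ⟨t, ht, hne⟩ := hfib x x.2 T (by omega)
    obtain ⟨k, hk⟩ := ENNReal.exists_inv_nat_lt hne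
    have h1 : μ t x < ((k : ℝ≥0∞) + 1)⁻¹ := hx (⟨t, ht⟩, k)
    have h2 : ((k : ℝ≥0∞) + 1)⁻¹ ≤ (k : ℝ≥0∞)⁻¹ := ENNReal.inv_le_inv.2 le_self_add
    exact absurd (h1.trans_le h2) (not_lt.2 hk.le)
  -- the other heights
  let Bad : (Fin m → ℚ) × (Fin m → ℚ) → Set ℝ := fun z =>
    if (∀ i, (z.1 i : ℝ) < z.2 i) ∧ Icc (fun i => (z.1 i : ℝ)) (fun i => (z.2 i : ℝ)) ⊆ B then
      {t | volume (Img (fun u => lft (a (Fin.append u (rgt p)))) (fun i => (z.1 i : ℝ))
        (fun i => (z.2 i : ℝ)) t) = 0} else ∅
  have hBad : ∀ z, (Bad z).Countable := by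
    intro z
    simp only [Bad]
    split_ifs with h
    · exact hbase _ _ h.1 h.2
    · exact countable_empty
  refine (hD.union (countable_iUnion hBad)).mono fun t ht => ?_
  by_cases htD : t ∈ D
  · exact Or.inl htD
  refine Or.inr ?_
  have htD' : ∃ U : Set (Fin m → ℝ), IsOpen U ∧ (U ∩ B).Nonempty ∧ ∀ u ∈ U ∩ B, μ t u ≠ 0 := by
    by_contra hcon
    apply htD
    intro U hU hUn
    by_contra hcon'
    push Not at hcon'
    exact hcon ⟨U, hU, hUn, hcon'⟩
  obtain ⟨U, hU, ⟨v, hvU, hvB⟩, hUμ⟩ := htD'
  obtain ⟨ε, hε, hεU⟩ := Metric.isOpen_iff.1 hU v hvU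
  obtain ⟨r, s, hrs, hrsB⟩ := subbox hlpq hvB hε
  set Q : Set (Fin m → ℝ) := Icc (fun i => (r i : ℝ)) (fun i => (s i : ℝ)) with hQ
  have hQB : Q ⊆ B := fun w hw => (hrsB hw).1
  have hQμ : ∀ w ∈ Q, μ t w ≠ 0 := fun w hw => hUμ w ⟨hεU (hrsB hw).2, (hrsB hw).1⟩
  have hQn : Nonempty Q := ⟨⟨fun i => (r i : ℝ), left_mem_Icc.2 fun i => (hrs i).le⟩⟩
  have : CompactSpace Q := isCompact_iff_compactSpace.1 isCompact_Icc
  have hcl : ∀ k : ℕ, IsClosed {u : Q | ((k : ℝ≥0∞) + 1)⁻¹ ≤ μ t u} := by
    intro k
    have hc := husc t Q isClosed_Icc isCompact_Icc hQB (((k : ℝ≥0∞) + 1)⁻¹)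
    have hc' := hc.preimage (continuous_subtype_val (p := fun u => u ∈ Q))
    convert hc' using 1
    ext u
    simp
  have hun : ⋃ k : ℕ, {u : Q | ((k : ℝ≥0∞) + 1)⁻¹ ≤ μ t u} = univ := by
    refine eq_univ_of_forall fun u => ?_
    obtain ⟨k, hk⟩ := ENNReal.exists_inv_nat_lt (hQμ u u.2)
    exact mem_iUnion.2 ⟨k, (ENNReal.inv_le_inv.2 le_self_add).trans hk.le⟩
  obtain ⟨k, x, hx⟩ := nonempty_interior_of_iUnion_of_closed hcl hun
  obtain ⟨ε', hε', hball⟩ := Metric.mem_nhds_iff.1 (mem_interior_iff_mem_nhds.1 hx)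
  obtain ⟨r', s', hrs', hrsQ⟩ := subbox hrs x.2 hε'
  have hμ : ∀ w ∈ Icc (fun i => (r' i : ℝ)) (fun i => (s' i : ℝ)),
      ((k : ℝ≥0∞) + 1)⁻¹ ≤ μ t w := fun w hw =>
    hball (show (⟨w, (hrsQ hw).1⟩ : Q) ∈ Metric.ball x ε' from (hrsQ hw).2)
  have hsubB : Icc (fun i => (r' i : ℝ)) (fun i => (s' i : ℝ)) ⊆ B := fun w hw =>
    hQB (hrsQ hw).1
  refine mem_iUnion.2 ⟨(r', s'), ?_⟩
  simp only [Bad]
  rw [if_pos ⟨hrs', hsubB⟩]
  have hrp : rgt p ∈ R := left_mem_Icc.2 fun i => (hrpq i).le
  have hbc : ContinuousOn (fun u => lft (a (Fin.append u (rgt p))))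
      (Icc (fun i => (r' i : ℝ)) (fun i => (s' i : ℝ))) := by
    have h1 : ContinuousOn (fun u : Fin m → ℝ => a (Fin.append u (rgt p)))
        (Icc (fun i => (r' i : ℝ)) (fun i => (s' i : ℝ))) :=
      ha.comp (append_continuous.comp (by fun_prop : Continuous fun u : Fin m → ℝ =>
        (u, rgt p))).continuousOn fun u hu => append_mem (hsubB hu) hrp
    exact continuousOn_pi.2 fun i => (continuous_apply _).comp_continuousOn h1
  have hlow := fubini_lower (Img_compact ha t).measurableSet (Img_compact hbc t).measurableSet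
    (((k : ℝ≥0∞) + 1)⁻¹) (by
      rintro _ ⟨u, hu, rfl⟩
      refine (hμ u hu).trans (measure_mono ?_)
      rintro _ ⟨w, hw, rfl⟩
      refine ⟨Fin.append u w, append_mem (hsubB hu) hw, ?_⟩
      have h1 : lft (a (Fin.append u w)) = lft (a (Fin.append u (rgt p))) :=
        hcut _ (append_mem (hsubB hu) hw) _ (append_mem (hsubB hu) hrp)
          (by rw [lft_append, lft_append])
      funext i
      refine Fin.addCases (fun i => ?_) (fun i => ?_) i
      · have := congrFun h1 i
        simp only [lft] at this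
        simp only [Pi.add_apply, Pi.smul_apply, Fin.append_left, smul_eq_mul, this, lft]
      · simp only [Pi.add_apply, Pi.smul_apply, Fin.append_right, smul_eq_mul, rgt])
  have ht0 : volume (Img a p q t) = 0 := ht
  rw [ht0, nonpos_iff_eq_zero, mul_eq_zero] at hlow
  refine hlow.resolve_left ?_
  rw [ENNReal.inv_eq_zero]
  simp

/-- The first `k` coordinates of the position depend only on the first `k` coordinates of the
slope. -/
def Cut {d : ℕ} (a : (Fin d → ℝ) → Fin d → ℝ) (p q : Fin d → ℝ) (k : ℕ) : Prop :=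
  ∀ v ∈ Icc p q, ∀ w ∈ Icc p q, (∀ j : Fin d, (j : ℕ) < k → v j = w j) →
    ∀ i : Fin d, (i : ℕ) < k → a v i = a w i

/-- The coordinates `k, …, k' - 1` of `a v` are, for given first `k` coordinates of `v`, sums of
functions of the single coordinates `k, …, k' - 1` of `v`. -/
def SepBlock {d : ℕ} (a : (Fin d → ℝ) → Fin d → ℝ) (p q : Fin d → ℝ) (k k' : ℕ) : Prop :=
  ∃ c : (Fin d → ℝ) → Fin d → ℝ → Fin d → ℝ, ∀ v ∈ Icc p q, ∀ i : Fin d, k ≤ i → (i : ℕ) < k' →
    a v i = ∑ j : Fin d, if k ≤ (j : ℕ) ∧ (j : ℕ) < k' then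
      c (fun l => if (l : ℕ) < k then v l else 0) j (v j) i else 0

/-- The coordinates `k, …, k' - 1` are a block: the first `k'` coordinates of the position depend
only on the first `k'` coordinates of the slope, and the block has at most two elements or is
additively separable. -/
def Step {d : ℕ} (a : (Fin d → ℝ) → Fin d → ℝ) (p q : Fin d → ℝ) (k k' : ℕ) : Prop :=
  k < k' ∧ Cut a p q k' ∧ (k' ≤ k + 2 ∨ SepBlock a p q k k')

theorem chain_cut {d : ℕ} {a : (Fin d → ℝ) → Fin d → ℝ} {p q : Fin d → ℝ} {k : ℕ}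
    (h : Relation.ReflTransGen (Step a p q) 0 k) : Cut a p q k := by
  rcases Relation.ReflTransGen.cases_tail h with h | ⟨c, -, h⟩
  · subst h
    exact fun v _ w _ _ i hi => absurd hi (Nat.not_lt_zero _)
  · exact h.2.1

/-- **Continuous block triangular selections**: only countably many null slices. -/
theorem tri : ∀ (d : ℕ) (a : (Fin d → ℝ) → Fin d → ℝ) (p q : Fin d → ℝ), (∀ i, p i < q i) →
    ContinuousOn a (Icc p q) → Relation.ReflTransGen (Step a p q) 0 d →
    {t | volume (Img a p q t) = 0}.Countable := by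
  intro d
  induction d using Nat.strong_induction_on with
  | _ d ih =>
    intro a p q hpq ha hch
    rcases Relation.ReflTransGen.cases_tail hch with h | ⟨m, hch', hst⟩
    · subst h
      have : {t : ℝ | volume (Img a p q t) = 0} = ∅ := by
        refine eq_empty_of_forall_notMem fun t ht => ?_
        have h1 : Img a p q t = univ := by
          refine eq_univ_of_forall fun z => ⟨p, ⟨le_rfl, fun i => i.elim0⟩, Subsingleton.elim _ _⟩
        have ht' : volume (Img a p q t) = 0 := ht
        rw [h1] at ht'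
        exact isOpen_univ.measure_ne_zero volume univ_nonempty ht'
      rw [this]
      exact countable_empty
    · obtain ⟨l, rfl⟩ : ∃ l, d = m + l := ⟨d - m, by have := hst.1; omega⟩
      have hl : 0 < l := by have := hst.1; omega
      have hm : Cut a p q m := chain_cut hch'
      have hrp : rgt p ∈ Icc (rgt p) (rgt q) := left_mem_Icc.2 fun i => (hpq _).le
      refine ext_few (N := max 2 l) hpq ha ?_ ?_ ?_
      · intro v hv w hw h
        funext i
        refine hm v hv w hw (fun j hj => ?_) _ (by simp)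
        exact congrFun h ⟨j, hj⟩
      · intro r s hrs hsub
        have hup : ∀ u : Fin m → ℝ, ∀ k ≤ m, (fun i : Fin (m + l) => if (i : ℕ) < k then
            Fin.append u (rgt p) i else 0) = Fin.append (fun i : Fin m => if (i : ℕ) < k then u i
              else 0) (0 : Fin l → ℝ) := by
          intro u k hk
          funext i
          refine Fin.addCases (fun i => ?_) (fun i => ?_) i
          · simp
          · simp only [Fin.append_right, Fin.val_natAdd, Pi.zero_apply]
            rw [if_neg (by omega)]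
        have key : ∀ k k', k' ≤ m → Step a p q k k' →
            Step (fun u => lft (a (Fin.append u (rgt p)))) r s k k' := by
          intro k k' hk' hS
          refine ⟨hS.1, ?_, hS.2.2.imp id ?_⟩
          · intro v hv w hw h i hi
            refine hS.2.1 _ (append_mem (hsub hv) hrp) _ (append_mem (hsub hw) hrp)
              (fun j hj => ?_) (Fin.castAdd l i) (by simpa using hi)
            revert hj
            refine Fin.addCases (fun j hj => ?_) (fun j hj => ?_) j
            · rw [Fin.append_left, Fin.append_left]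
              exact h j (by simpa using hj)
            · rw [Fin.append_right, Fin.append_right]
          · rintro ⟨c, hc⟩
            refine ⟨fun u j x i => c (Fin.append u 0) (Fin.castAdd l j) x (Fin.castAdd l i),
              fun v hv i hi hi' => ?_⟩
            have h1 := hc _ (append_mem (hsub hv) hrp) (Fin.castAdd l i) (by simpa using hi)
              (by simpa using hi')
            rw [Fin.sum_univ_add, hup v k (by omega)] at h1
            simp only [Fin.val_castAdd, Fin.append_left, Fin.val_natAdd] at h1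
            have h2 : ∀ x : Fin l, ¬ (k ≤ m + (x : ℕ) ∧ m + (x : ℕ) < k') := fun x => by omega
            simp only [h2, if_false, Finset.sum_const_zero, add_zero] at h1
            exact h1
        refine ih m (by omega) _ r s hrs ?_ ?_
        · have h1 : ContinuousOn (fun u : Fin m → ℝ => a (Fin.append u (rgt p))) (Icc r s) :=
            ha.comp (append_continuous.comp (by fun_prop : Continuous fun u : Fin m → ℝ =>
              (u, rgt p))).continuousOn fun u hu => append_mem (hsub hu) hrp
          exact continuousOn_pi.2 fun i => (continuous_apply _).comp_continuousOn h1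
        · have hgen : ∀ x, Relation.ReflTransGen (Step a p q) 0 x → x ≤ m →
              Relation.ReflTransGen (Step (fun u => lft (a (Fin.append u (rgt p)))) r s) 0 x := by
            intro x hx
            induction hx with
            | refl => exact fun _ => Relation.ReflTransGen.refl
            | tail _ hS ih' =>
              intro hle
              exact (ih' (by have := hS.1; omega)).tail (key _ _ hle hS)
          exact hgen m hch' le_rfl
      · intro u hu
        have hbc : ContinuousOn (fun w => rgt (a (Fin.append u w))) (Icc (rgt p) (rgt q)) := by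
          have h1 : ContinuousOn (fun w : Fin l → ℝ => a (Fin.append u w))
              (Icc (rgt p) (rgt q)) :=
            ha.comp (append_continuous.comp (by fun_prop : Continuous fun w : Fin l → ℝ =>
              (u, w))).continuousOn fun w hw => append_mem hu hw
          exact continuousOn_pi.2 fun i => (continuous_apply _).comp_continuousOn h1
        rcases hst.2.2 with h2 | ⟨c, hc⟩
        · exact (few_small hl (by omega) (fun i => hpq _) hbc).mono (le_max_left _ _)
        · refine (few_sep (fun i => hpq _) hbc (fun j x i => c (Fin.append u 0)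
            (Fin.natAdd m j) x (Fin.natAdd m i)) fun w hw => ?_).mono (le_max_right _ _)
          funext i
          have h1 := hc _ (append_mem hu hw) (Fin.natAdd m i) (by simp) (by simp)
          have h3 : (fun i : Fin (m + l) => if (i : ℕ) < m then Fin.append u w i else 0) =
              Fin.append u 0 := by
            funext i
            refine Fin.addCases (fun i => ?_) (fun i => ?_) i
            · simp
            · simp
          rw [Fin.sum_univ_add, h3] at h1
          simp only [Fin.val_castAdd, Fin.append_right, Fin.val_natAdd] at h1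
          have h4 : ∀ x : Fin m, ¬ (m ≤ (x : ℕ) ∧ (x : ℕ) < m + l) := fun x => by omega
          have h5 : ∀ x : Fin l, (m ≤ m + (x : ℕ) ∧ m + (x : ℕ) < m + l) := fun x => by omega
          simp only [h4, h5, if_false, if_true, and_self, Finset.sum_const_zero, zero_add] at h1
          show a (Fin.append u w) (Fin.natAdd m i) = _
          rw [h1, Finset.sum_apply]

end Pool.Agent.H69.Kk.Pl
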