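import Pool.Agent.H69.Kk.Chain2

set_option autoImplicit false
open Set Filter Topology MeasureTheory
open scoped ENNReal

namespace Pool.Agent.H69.Kk.Pl

variable {d : ℕ}

theorem Cut.mono {a : (Fin d → ℝ) → Fin d → ℝ} {p q r s : Fin d → ℝ} {k : ℕ}
    (h : Cut a p q k) (hs : Icc r s ⊆ Icc p q) : Cut a r s k :=
  fun v hv w hw => h v (hs hv) w (hs hw)

theorem Step.mono {a : (Fin d → ℝ) → Fin d → ℝ} {p q r s : Fin d → ℝ} {k k' : ℕ}
    (h : Step a p q k k') (hs : Icc r s ⊆ Icc p q) : Step a r s k k' :=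
  ⟨h.1, h.2.1.mono hs, h.2.2.imp id fun ⟨c, hc⟩ => ⟨c, fun v hv => hc v (hs hv)⟩⟩

/-- `a` is continuous on the box and block triangular there: there are
`0 = k_0 < k_1 < … < k_m = d` such that each two neighbours are related by `Step`. -/
def Blocks (a : (Fin d → ℝ) → Fin d → ℝ) (p q : Fin d → ℝ) : Prop :=
  ContinuousOn a (Icc p q) ∧ Relation.ReflTransGen (Step a p q) 0 d

theorem Blocks.mono {a : (Fin d → ℝ) → Fin d → ℝ} {p q r s : Fin d → ℝ} (h : Blocks a p q)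
    (hs : Icc r s ⊆ Icc p q) : Blocks a r s :=
  ⟨h.1.mono hs, by
    have key : ∀ x, Relation.ReflTransGen (Step a p q) 0 x →
        Relation.ReflTransGen (Step a r s) 0 x := by
      intro x hx
      induction hx with
      | refl => exact Relation.ReflTransGen.refl
      | tail _ hS ih => exact ih.tail (Step.mono hS hs)
    exact key d h.2⟩

/-- countably many selections of segments of a closed family: a common part (Baire) -/
theorem baire_sub {a : ℕ → (Fin d → ℝ) → Fin d → ℝ} {p q : Fin d → ℝ} (hpq : ∀ i, p i < q i)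
    (ha : ∀ j, ContinuousOn (a j) (Icc p q)) {P : ℝ → Set (Fin d → ℝ)}
    (hP : ∀ t, IsClosed (P t))
    (hK : ∀ v ∈ Icc p q, ∃ j, ∃ t1 t2 : ℝ, t1 < t2 ∧ ∀ t ∈ Icc t1 t2, a j v + t • v ∈ P t) :
    ∃ (j : ℕ) (r s : Fin d → ℝ) (t1 t2 : ℝ), (∀ i, r i < s i) ∧ Icc r s ⊆ Icc p q ∧ t1 < t2 ∧
      ∀ v ∈ Icc r s, ∀ t ∈ Icc t1 t2, a j v + t • v ∈ P t := by
  classical
  let J : Type := ℕ × {r : ℚ × ℚ // r.1 < r.2}
  let C : J → Set (Icc p q) := fun r =>
    {v | ∀ t ∈ Icc (r.2.1.1 : ℝ) r.2.1.2, a r.1 (v : Fin d → ℝ) + t • (v : Fin d → ℝ) ∈ P t}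
  have hcont : ∀ (j : ℕ) (t : ℝ), ContinuousOn (fun v : Fin d → ℝ => a j v + t • v) (Icc p q) :=
    fun j t => (ha j).add (by fun_prop)
  have hCc : ∀ r, IsClosed (C r) := by
    intro r
    simp only [C, Set.ofPred_forall]
    refine isClosed_iInter fun t => isClosed_iInter fun _ => ?_
    exact (hP t).preimage (continuousOn_iff_continuous_domRestrict.1 (hcont r.1 t))
  have hCu : ⋃ r, C r = univ := by
    refine eq_univ_of_forall fun v => ?_
    obtain ⟨k, t1, t2, h12, h⟩ := hK v v.2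
    obtain ⟨r1, h1, h2⟩ := exists_rat_btwn h12
    obtain ⟨r2, h3, h4⟩ := exists_rat_btwn h2
    refine mem_iUnion.2 ⟨⟨k, ⟨(r1, r2), by exact_mod_cast h3⟩⟩, fun t ht => h t ⟨?_, ?_⟩⟩
    · exact h1.le.trans ht.1
    · exact ht.2.trans h4.le
  have hne : Nonempty (Icc p q) := ⟨⟨p, le_rfl, fun i => (hpq i).le⟩⟩
  have : CompactSpace (Icc p q) := isCompact_iff_compactSpace.1 isCompact_Icc
  obtain ⟨r, v, hv⟩ := nonempty_interior_of_iUnion_of_closed hCc hCu
  obtain ⟨ε, hε, hball⟩ := Metric.mem_nhds_iff.1 (mem_interior_iff_mem_nhds.1 hv)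
  obtain ⟨x, y, hxy, hsub⟩ := subbox hpq v.2 hε
  refine ⟨r.1, fun i => (x i : ℝ), fun i => (y i : ℝ), r.2.1.1, r.2.1.2, hxy,
    fun w hw => (hsub hw).1, by exact_mod_cast r.2.2, fun w hw t ht => ?_⟩
  have : (⟨w, (hsub hw).1⟩ : Icc p q) ∈ C r :=
    hball (show (⟨w, (hsub hw).1⟩ : Icc p q) ∈ Metric.ball v ε from (hsub hw).2)
  exact this t ht

theorem vol_pos {K : Set (EuclideanSpace ℝ (Fin (d + 1)))} {a : (Fin d → ℝ) → Fin d → ℝ}
    {p q : Fin d → ℝ} (hc : {t | volume (Img a p q t) = 0}.Countable) {t1 t2 : ℝ} (h12 : t1 < t2)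
    (hK : ∀ v ∈ Icc p q, ∀ t ∈ Icc t1 t2, pt t (a v + t • v) ∈ K) : 0 < volume K := by
  rw [pos_iff_ne_zero]
  intro h0
  have hm := measurableSet_toMeasurable volume K
  have hs : K ⊆ toMeasurable volume K := subset_toMeasurable volume K
  rw [← measure_toMeasurable K, ← (pt_preserving d).measure_preimage hm.nullMeasurableSet] at h0
  have h1 := (Measure.measure_prod_null ((pt_preserving d).measurable hm)).1 h0
  have h2 : ∀ᵐ t : ℝ, t ∉ Icc t1 t2 := by
    have h3 : ∀ᵐ t : ℝ, t ∉ {t | volume (Img a p q t) = 0} :=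
      measure_eq_zero_iff_ae_notMem.1 (hc.measure_zero _)
    filter_upwards [h1, h3] with t ht ht' htI
    refine ht' (measure_mono_null ?_ ht)
    rintro _ ⟨v, hv, rfl⟩
    exact hs (hK v hv t htI)
  have h3 := measure_eq_zero_iff_ae_notMem.2 h2
  rw [Real.volume_Icc, ENNReal.ofReal_eq_zero] at h3
  linarith

/-- closed sets which contain nondegenerate parts of the lines -/
theorem closed_sets {K : Set (EuclideanSpace ℝ (Fin (d + 1)))} (hK : IsClosed K)
    {a : ℕ → (Fin d → ℝ) → Fin d → ℝ} {p q : Fin d → ℝ} (hpq : ∀ i, p i < q i)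
    (ha : ∀ j, Blocks (a j) p q)
    (h : ∀ v ∈ Icc p q, ∃ j, ∃ t1 t2 : ℝ, t1 < t2 ∧ ∀ t ∈ Icc t1 t2,
      pt t (a j v + t • v) ∈ K) : 0 < volume K ∧ dimH K = (d + 1 : ℕ) := by
  have hP : ∀ t, IsClosed (slice K t) := fun t =>
    hK.preimage ((pt_continuous d).comp (Continuous.prodMk_right t))
  obtain ⟨j, r, s, t1, t2, hrs, hsub, h12, h'⟩ := baire_sub hpq (fun j => (ha j).1) hP h
  have hb := (ha j).mono hsub
  have := vol_pos (tri d (a j) r s hrs hb.1 hb.2) h12 h'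
  exact ⟨this, dimH_of_volume K this.ne'⟩

end Pool.Agent.H69.Kk.Pl
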