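import Pool.Agent.H69.Kk.Tile

set_option autoImplicit false
open MeasureTheory Set Filter Topology
open scoped ENNReal

namespace Pool.Agent.H69.Kk.Cont

variable {d : ℕ}

/-- the matrix with the columns `w i` -/
def mat (w : Fin d → Fin d → ℝ) : Matrix (Fin d) (Fin d) ℝ := fun j i => w i j

/-- sums of `d` paths -/
theorem paths (γ : Fin d → ℝ → (Fin d → ℝ)) (hγ : ∀ i, ContinuousOn (γ i) (Icc 0 1)) :
    ENNReal.ofReal |(mat fun i => γ i 1 - γ i 0).det| ≤
      volume ((fun s : Fin d → ℝ => ∑ i, γ i (s i)) '' Icc 0 1) := by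
  let w : Fin d → Fin d → ℝ := fun i => γ i 1 - γ i 0
  let h : Fin d → ℝ → (Fin d → ℝ) := fun i u => γ i u - u • w i
  have hc : ∀ i, Continuous (h i ∘ Int.fract) := fun i =>
    ContinuousOn.comp_fract'' ((hγ i).sub (by fun_prop)) (by simp [h, w])
  let F : (Fin d → ℝ) → (Fin d → ℝ) := fun v => ∑ i, ((h i ∘ Int.fract) (v i) + v i • w i)
  have hF : Continuous F := continuous_finsetSum _ fun i _ =>
    ((hc i).comp (continuous_apply i)).add ((continuous_apply i).smul continuous_const)
  have e : (fun s : Fin d → ℝ => ∑ i, γ i (s i)) '' Icc 0 1 = F '' Icc 0 1 := by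
    refine image_congr fun v hv => Finset.sum_congr rfl fun i _ => ?_
    have h0 := hv.1 i
    have h1 := hv.2 i
    simp only [Pi.zero_apply, Pi.one_apply] at h0 h1
    simp only [Function.comp, h]
    rcases h1.eq_or_lt with h2 | h2
    · rw [h2]
      simp [w]
    · rw [Int.fract_eq_self.2 ⟨h0, h2⟩]
      simp
  rw [e]
  refine Tile.det_le_volume _ F hF fun v i => ?_
  have e1 : ∀ k, (v + (Pi.single i 1 : Fin d → ℝ) : Fin d → ℝ) k = if k = i then v i + 1 else v k := by
    intro k
    by_cases hk : k = i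
    · subst hk; simp
    · simp [hk]
  simp only [F]
  rw [← sub_eq_iff_eq_add', ← Finset.sum_sub_distrib, Finset.sum_eq_single i]
  · rw [e1, if_pos rfl]
    simp only [Function.comp, Int.fract_add_one, mat]
    funext j
    simp only [Pi.add_apply, Pi.sub_apply, Pi.smul_apply, smul_eq_mul, w]
    ring
  · intro k _ hk
    rw [e1, if_neg hk]
    simp
  · simp

/-- the sum of `d` sets -/
def sumset (A : Fin d → Set (Fin d → ℝ)) : Set (Fin d → ℝ) :=
  {z | ∃ p : Fin d → (Fin d → ℝ), (∀ i, p i ∈ A i) ∧ z = ∑ i, p i}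

theorem sumset_compact {A : Fin d → Set (Fin d → ℝ)} (hA : ∀ i, IsCompact (A i)) :
    IsCompact (sumset A) := by
  have : sumset A = (fun p : Fin d → (Fin d → ℝ) => ∑ i, p i) '' (univ.pi A) := by
    ext z
    constructor
    · rintro ⟨p, hp, rfl⟩
      exact ⟨p, fun i _ => hp i, rfl⟩
    · rintro ⟨p, hp, rfl⟩
      exact ⟨p, fun i => hp i (mem_univ i), rfl⟩
  rw [this]
  exact (isCompact_univ_pi hA).image (continuous_finsetSum _ fun i _ => continuous_apply i)

theorem thick_conn {E : Type*} [NormedAddCommGroup E] [NormedSpace ℝ E] {A : Set E}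
    (hA : IsConnected A) {ε : ℝ} (hε : 0 < ε) : IsConnected (Metric.thickening ε A) := by
  have e : Metric.thickening ε A = (fun p : E × E => p.1 + p.2) '' (A ×ˢ Metric.ball 0 ε) := by
    ext z
    rw [Metric.mem_thickening_iff]
    constructor
    · rintro ⟨a, ha, h⟩
      exact ⟨(a, z - a), ⟨ha, by simpa [dist_eq_norm] using h⟩, by simp⟩
    · rintro ⟨⟨a, b⟩, ⟨ha, hb⟩, rfl⟩
      exact ⟨a, ha, by simpa [dist_eq_norm] using hb⟩
  rw [e]
  have hball : IsConnected (Metric.ball (0 : E) ε) :=
    ⟨⟨0, by simpa using hε⟩, (convex_ball 0 ε).isPreconnected⟩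
  exact (hA.prod hball).image _ (by fun_prop)

/-- **Sums of `d` continua in `ℝ^d`.** -/
theorem continua (A : Fin d → Set (Fin d → ℝ)) (hA : ∀ i, IsCompact (A i))
    (hc : ∀ i, IsConnected (A i)) (x y : Fin d → (Fin d → ℝ)) (hx : ∀ i, x i ∈ A i)
    (hy : ∀ i, y i ∈ A i) :
    ENNReal.ofReal |(mat fun i => y i - x i).det| ≤ volume (sumset A) := by
  have key : ∀ ε : ℝ, 0 < ε → ENNReal.ofReal |(mat fun i => y i - x i).det| ≤
      volume (Metric.cthickening (d * ε) (sumset A)) := by
    intro ε hε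
    have hj : ∀ i, JoinedIn (Metric.thickening ε (A i)) (x i) (y i) := fun i =>
      ((Metric.isOpen_thickening.isConnected_iff_isPathConnected).1
        (thick_conn (hc i) hε)).joinedIn _ (Metric.self_subset_thickening hε _ (hx i)) _
        (Metric.self_subset_thickening hε _ (hy i))
    let γ : Fin d → ℝ → (Fin d → ℝ) := fun i => (hj i).somePath.extend
    have hγ : ∀ i, Continuous (γ i) := fun i => (hj i).somePath.continuous_extend
    have hγA : ∀ i s, γ i s ∈ Metric.thickening ε (A i) := fun i s => by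
      have : γ i s ∈ range (hj i).somePath := by
        rw [← Path.extend_range]; exact mem_range_self s
      obtain ⟨u, hu⟩ := this
      rw [← hu]
      exact (hj i).somePath_mem u
    have h1 := paths γ fun i => (hγ i).continuousOn
    have e1 : (fun i => γ i 1 - γ i 0) = fun i => y i - x i := by
      funext i
      simp only [γ, Path.extend_one, Path.extend_zero]
    rw [e1] at h1
    refine h1.trans (measure_mono ?_)
    rintro _ ⟨s, -, rfl⟩
    choose p hp hp' using fun i => (Metric.mem_thickening_iff.1 (hγA i (s i)))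
    refine Metric.mem_cthickening_of_dist_le _ (∑ i, p i) _ _ ⟨p, hp, rfl⟩ ?_
    refine (dist_sum_sum_le _ _ _).trans ?_
    calc ∑ i, dist (γ i (s i)) (p i) ≤ ∑ _i : Fin d, ε := Finset.sum_le_sum fun i _ => (hp' i).le
      _ = d * ε := by simp
  have lim := tendsto_measure_cthickening_of_isCompact (μ := (volume : Measure (Fin d → ℝ)))
    (sumset_compact hA)
  have t1 : Tendsto (fun ε : ℝ => (d : ℝ) * ε) (𝓝[>] 0) (𝓝 0) := by
    have : Tendsto (fun ε : ℝ => (d : ℝ) * ε) (𝓝 0) (𝓝 ((d : ℝ) * 0)) :=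
      (continuous_const.mul continuous_id).tendsto 0
    rw [mul_zero] at this
    exact this.mono_left nhdsWithin_le_nhds
  refine ge_of_tendsto (lim.comp t1) ?_
  filter_upwards [self_mem_nhdsWithin] with ε hε
  exact key ε hε

end Pool.Agent.H69.Kk.Cont
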