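import Pool.Agent.H69.Kk.BU

set_option autoImplicit false

/-! Brouwer's theorem, and: an odd map of a sphere is not homotopic, through nonvanishing maps, to an
even map (mod 2 degree).  Adapted from library modules (39128cda: H/MP_5de19d_an/A, Lib/helper21_/Deg2). -/

namespace Pool.Agent.H69.Kk.Deg

open Pool.Agent.H69.Kk.BU

theorem noretr {E : Type*} [NormedAddCommGroup E] [NormedSpace ℝ E] [FiniteDimensional ℝ E]
    (G : E → E) (hG : Continuous G) (hb : ∀ x, ‖x‖ = 1 → G x = x) : ∃ x, G x = 0 := by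
  obtain ⟨z, hz, h⟩ := Pool.Agent.H69.Kk.BU.borsuk_ulam (E := E × ℝ) (F := E)
    (Or.inr (by simp)) (fun z => ((1 + z.2) / 2) • G z.1 - ((1 - z.2) / 2) • G (-z.1))
    (Continuous.continuousOn (by fun_prop)) (fun z _ => by
      simp only [Prod.fst_neg, Prod.snd_neg, neg_neg, neg_sub, sub_neg_eq_add]
      rw [← sub_eq_add_neg])
  rw [Prod.norm_def] at hz
  rcases max_choice ‖z.1‖ ‖z.2‖ with h1 | h1
  · rw [h1] at hz
    rw [hb _ hz, hb _ (by rwa [norm_neg]), smul_neg, sub_neg_eq_add, ← add_smul] at h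
    have : (1 + z.2) / 2 + (1 - z.2) / 2 = 1 := by ring
    rw [this, one_smul] at h
    rw [h] at hz
    simp at hz
  · rw [h1, Real.norm_eq_abs] at hz
    rcases (abs_eq zero_le_one).1 hz with h2 | h2
    · exact ⟨z.1, by simpa [h2] using h⟩
    · exact ⟨-z.1, by simpa [h2] using h⟩

/-- Brouwer: a continuous map into the closed unit ball has a fixed point -/
theorem brouwer {E : Type*} [NormedAddCommGroup E] [NormedSpace ℝ E] [FiniteDimensional ℝ E]
    (f : E → E) (hf : Continuous f) (hb : ∀ x, ‖f x‖ ≤ 1) : ∃ x, f x = x := by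
  obtain ⟨y, hy⟩ := noretr (fun y => y - (max 0 (min 1 (2 - 2 * ‖y‖)) / 2) • f ((2 : ℝ) • y))
    (by fun_prop) (fun x hx => by simp [hx])
  have h1 : ‖y‖ ≤ 1 / 2 := by
    rw [sub_eq_zero] at hy
    rw [hy, norm_smul, Real.norm_eq_abs, abs_of_nonneg (by positivity)]
    have : max 0 (min 1 (2 - 2 * ‖y‖)) ≤ 1 := max_le zero_le_one (min_le_left _ _)
    have h2 := hb ((2 : ℝ) • y)
    have h3 : 0 ≤ max 0 (min 1 (2 - 2 * ‖y‖)) := le_max_left _ _
    nlinarith [norm_nonneg (f ((2 : ℝ) • y))]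
  rw [min_eq_left (by linarith), max_eq_right zero_le_one, sub_eq_zero] at hy
  refine ⟨(2 : ℝ) • y, ?_⟩
  conv_rhs => rw [hy]
  rw [smul_smul]; norm_num

/-- a bounded perturbation of a linear isomorphism is surjective -/
theorem surj {E : Type*} [NormedAddCommGroup E] [NormedSpace ℝ E] [FiniteDimensional ℝ E]
    (L : E ≃L[ℝ] E) (g : E → E) (hg : Continuous g) (B : ℝ) (hB : ∀ x, ‖g x‖ ≤ B) (y : E) :
    ∃ x, L x + g x = y := by
  have hB0 : 0 ≤ B := (norm_nonneg _).trans (hB 0)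
  set R : ℝ := ‖(L.symm : E →L[ℝ] E)‖ * (‖y‖ + B) + 1 with hR
  have hR0 : 0 < R := by positivity
  obtain ⟨x, hx⟩ := brouwer (fun x => R⁻¹ • L.symm (y - g (R • x)))
    (by fun_prop) (fun x => by
      rw [norm_smul, norm_inv, Real.norm_eq_abs, abs_of_pos hR0, inv_mul_le_iff₀ hR0, mul_one]
      refine ((L.symm : E →L[ℝ] E).le_opNorm _).trans ?_
      have h1 : ‖y - g (R • x)‖ ≤ ‖y‖ + B := (norm_sub_le _ _).trans (by gcongr; exact hB _)
      have := mul_le_mul_of_nonneg_left h1 (norm_nonneg (L.symm : E →L[ℝ] E))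
      linarith)
  refine ⟨R • x, ?_⟩
  have h2 : R • x = L.symm (y - g (R • x)) := by
    conv_lhs => rw [← hx]
    rw [smul_smul, mul_inv_cancel₀ hR0.ne', one_smul]
  have h3 : L (R • x) = y - g (R • x) := by
    conv_lhs => rw [h2]
    simp
  rw [h3]; simp

theorem cycle (n : ℕ) {ε : ℝ} (hε : 0 < ε) (lab : (Fin (n + 1) → ℝ) → ℕ)
    (h1 : ∀ x ∈ S n n, lab (-x) = nu (lab x))
    (h3 : ∀ x ∈ S n n, ∀ y ∈ S n n, dist x y ≤ ε → lab x ≠ nu (lab y)) :
    ∃ Z : (List (Fin (n + 1) → ℝ) → ZMod 2) → ZMod 2,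
      (∀ φ ψ, Z (fun m => φ m + ψ m) = Z φ + Z ψ) ∧
      (∀ φ, (∀ l, Good n n ε l → φ l = 0) → Z φ = 0) ∧ (∀ φ, Z (d φ) = 0) ∧
      Z (fun m => A 0 (srt (m.map lab))) = 1 ∧ ∀ φ, (∀ l, φ (l.map Neg.neg) = φ l) → Z φ = 0 := by
  have nc : ∀ k δ l, δ ≤ ε → Good n k δ l → ∀ a ∈ l.map lab, ∀ b ∈ l.map lab, a ≠ nu b := by
    intro k δ l hδ hl a ha b hb
    obtain ⟨x, hx, rfl⟩ := List.mem_map.1 ha
    obtain ⟨y, hy, rfl⟩ := List.mem_map.1 hb
    exact h3 x (S_mono (hl.2.1 x hx)) y (S_mono (hl.2.1 y hy)) ((hl.2.2 x hx y hy).trans hδ)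
  have cv : ∀ k δ, δ ≤ ε → ∀ T : (List (Fin (n + 1) → ℝ) → ZMod 2) → ZMod 2,
      (∀ φ ψ, T (fun m => φ m + ψ m) = T φ + T ψ) →
      (∀ φ, (∀ l, Good n k δ l → φ l = 0) → T φ = 0) →
      T (fun m => A 0 (srt (m.map lab))) + T (fun m => A 0 (srt ((m.map Neg.neg).map lab))) =
        T (d fun m => A 0 (srt (m.map lab))) := by
    intro k δ hδ T t1 t2
    have := t2 (fun m => (A 0 (srt (m.map lab)) + A 0 (srt ((m.map Neg.neg).map lab))) +
      d (fun m => A 0 (srt (m.map lab))) m) fun l hl => by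
        have e : (l.map Neg.neg).map lab = (l.map lab).map nu := by
          rw [List.map_map, List.map_map]
          exact List.map_congr_left fun x hx => h1 x (S_mono (hl.2.1 x hx))
        rw [d_map lab l fun m => A 0 (srt m), d_srt, e,
          srt_nu _ (nc _ _ l hδ hl), A_nu, zero_add, two]
    rw [t1, t1] at this
    have e := two (T (d fun m => A 0 (srt (m.map lab))))
    linear_combination this - e
  have key : ∀ k, k < n + 1 → ∀ δ, 0 < δ → δ ≤ ε →
      ∃ T : (List (Fin (n + 1) → ℝ) → ZMod 2) → ZMod 2,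
      (∀ φ ψ, T (fun m => φ m + ψ m) = T φ + T ψ) ∧
      (∀ φ, (∀ l, Good n k δ l → φ l = 0) → T φ = 0) ∧
      (∀ φ, T (d φ) + T (fun m => d φ (m.map Neg.neg)) = 0) ∧
      T (fun m => A 0 (srt (m.map lab))) +
        T (fun m => A 0 (srt ((m.map Neg.neg).map lab))) = 1 := by
    intro k
    induction k with
    | zero =>
      intro _ δ hδ hδ'
      have t2 : ∀ φ : List (Fin (n + 1) → ℝ) → ZMod 2, (∀ l, Good n 0 δ l → φ l = 0) →
          φ [Pi.single 0 1] = 0 := fun φ h => h _ ⟨rfl, by simpa using S_single (0 : Fin (n + 1)),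
            by simpa using hδ.le⟩
      refine ⟨fun φ => φ [Pi.single 0 1], fun _ _ => rfl, t2, ?_, ?_⟩
      · intro φ; simp [d, two]
      · rw [cv 0 δ hδ' (fun φ => φ [Pi.single 0 1]) (fun _ _ => rfl) t2]; simp [d, srt, A]
    | succ k ih =>
      intro hk δ hδ hδ'
      obtain ⟨T, t1, t2, t3, t4⟩ := ih (by omega) (δ / 2) (by positivity) (by linarith)
      obtain ⟨U, u1, u2, u3⟩ := extend hk hδ (fun φ => T φ + T fun m => φ (m.map Neg.neg))
        (fun φ ψ => by simp only [t1]; ring)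
        (fun φ h => by
          show T φ + T (fun m => φ (m.map Neg.neg)) = 0
          rw [t2 φ h, t2 _ fun l hl => h _ (Good_neg hl), add_zero]) t3
      refine ⟨U, u1, u2, fun φ => ?_, ?_⟩
      · rw [funext fun m => (d_map Neg.neg m φ).symm, u3, u3]
        simp only [List.map_map]
        have : (Neg.neg ∘ Neg.neg : (Fin (n + 1) → ℝ) → _) = id := by funext x; simp
        simp only [this, List.map_id]
        rw [add_comm (T fun m => _), two]
      · rw [cv _ δ hδ' U u1 u2, u3, t4]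
  obtain ⟨T, t1, t2, t3, t4⟩ := key n (by omega) ε hε le_rfl
  refine ⟨fun φ => T φ + T fun m => φ (m.map Neg.neg), fun φ ψ => by simp only [t1]; ring,
    fun φ h => by
      show T φ + T (fun m => φ (m.map Neg.neg)) = 0
      rw [t2 φ h, t2 _ fun l hl => h _ (Good_neg hl), add_zero], t3, t4, fun φ hφ => ?_⟩
  show T φ + T (fun m => φ (m.map Neg.neg)) = 0
  rw [funext hφ, two]

theorem exists_lab (n : ℕ) {m : ℝ} (m0 : 0 < m) : ∃ lab : (Fin n → ℝ) → ℕ,
    (∀ v, m ≤ ‖v‖ → lab (-v) = nu (lab v)) ∧ (∀ v, m ≤ ‖v‖ → lab v < 2 * n) ∧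
    ∀ v w, m ≤ ‖v‖ → m ≤ ‖w‖ → dist v w < m → lab v ≠ nu (lab w) := by
  classical
  have ex : ∀ g : Fin n → ℝ, ∃ i : ℕ, m ≤ ‖g‖ → ∃ h : i < n, m ≤ ‖g ⟨i, h⟩‖ := by
    intro g
    by_cases h : m ≤ ‖g‖
    · by_contra h'
      push Not at h'
      exact absurd ((pi_norm_lt_iff m0).2 fun i : Fin n => (h' i).2 i.2) (not_lt.2 h)
    · exact ⟨0, fun h' => absurd h' h⟩
  choose ix hix using ex
  have hx : ∀ v : Fin n → ℝ, m ≤ ‖v‖ → ∃ h : ix (fun i => |v i|) < n, m ≤ |v ⟨_, h⟩| := by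
    intro v hv
    have e : ‖fun i => |v i|‖ = ‖v‖ := by simp [Pi.norm_def, Real.nnnorm_abs]
    obtain ⟨h, h'⟩ := hix (fun i => |v i|) (by rw [e]; exact hv)
    exact ⟨h, by simpa using h'⟩
  refine ⟨fun v => 2 * ix (fun i => |v i|) +
    if ∃ h : ix (fun i => |v i|) < n, 0 < v ⟨_, h⟩ then 1 else 0, fun v hv => ?_, fun v hv => ?_,
    fun v w hv hw e1 e => ?_⟩
  · obtain ⟨h, h'⟩ := hx v hv
    simp only [Pi.neg_apply, abs_neg, h, exists_true_left, nu]
    rcases lt_trichotomy (v ⟨_, h⟩) 0 with c | c | c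
    · simp [c, not_lt.2 c.le]
    · rw [c, abs_zero] at h'; linarith
    · simp [c, not_lt.2 c.le]
  · obtain ⟨h, _⟩ := hx v hv
    beta_reduce
    split_ifs <;> omega
  · obtain ⟨h, h'⟩ := hx v hv
    obtain ⟨g, g'⟩ := hx w hw
    simp only [h, g, exists_true_left, nu] at e
    have e2 : ix (fun i => |v i|) = ix (fun i => |w i|) := by split_ifs at e <;> omega
    have e3 : (⟨_, h⟩ : Fin n) = ⟨_, g⟩ := Fin.ext e2
    have e4 := (dist_le_pi_dist v w ⟨_, g⟩).trans_lt e1
    rw [e3] at h' e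
    rw [Real.dist_eq, abs_lt] at e4
    by_cases c1 : 0 < v ⟨_, g⟩ <;> by_cases c2 : 0 < w ⟨_, g⟩
    · simp only [c1, c2, if_true] at e; split_ifs at e <;> omega
    · rw [abs_of_pos c1] at h'; rw [abs_of_nonpos (not_lt.1 c2)] at g'; linarith
    · rw [abs_of_pos c2] at g'; rw [abs_of_nonpos (not_lt.1 c1)] at h'; linarith
    · simp only [c1, c2, if_false] at e; split_ifs at e <;> omega

theorem S_compact (n : ℕ) : IsCompact (S n n) := by
  refine Metric.isCompact_of_isClosed_isBounded ?_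
    ((Metric.isBounded_closedBall (x := 0) (r := 1)).subset fun x hx => by simpa using S_norm hx)
  have : S n n = {x | ∑ j, |x j| = 1} := by
    ext x
    exact ⟨fun h => h.1, fun h => ⟨h, fun j hj => absurd j.2 (by omega)⟩⟩
  rw [this]
  exact isClosed_eq (by fun_prop) continuous_const

/-- an odd map of the sphere is not homotopic through nonvanishing maps to an even map -/
theorem no_even (n : ℕ) (F : ℝ × (Fin (n + 1) → ℝ) → (Fin (n + 1) → ℝ))
    (hc : ContinuousOn F (Set.Icc 0 1 ×ˢ S n n)) (h0 : ∀ p ∈ Set.Icc 0 1 ×ˢ S n n, F p ≠ 0)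
    (hodd : ∀ x ∈ S n n, F (0, -x) = -F (0, x)) (hinv : ∀ x, F (1, -x) = F (1, x)) : False := by
  have hK : IsCompact (Set.Icc (0 : ℝ) 1 ×ˢ S n n) := isCompact_Icc.prod (S_compact n)
  obtain ⟨p0, hp0, hm⟩ := hK.exists_isMinOn ⟨(0, _), by simp, S_mono (S_single 0)⟩ hc.norm
  have m0 : 0 < ‖F p0‖ := norm_pos_iff.2 (h0 p0 hp0)
  obtain ⟨δ, hδ, hu⟩ := Metric.uniformContinuousOn_iff.1 (hK.uniformContinuousOn_of_continuous hc)
    _ m0
  obtain ⟨lab, l1, l2, l3⟩ := exists_lab (n + 1) m0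
  have l4 : ∀ p ∈ Set.Icc 0 1 ×ˢ S n n, ∀ q ∈ Set.Icc 0 1 ×ˢ S n n, dist p q < δ →
      lab (F p) ≠ nu (lab (F q)) := fun p hp q hq h => l3 _ _ (hm hp) (hm hq) (hu p hp q hq h)
  obtain ⟨Z, z1, z2, z3, z4, z5⟩ := cycle n (half_pos hδ) (fun x => lab (F (0, x)))
    (fun x hx => by rw [hodd x hx]; exact l1 _ (hm ⟨by simp, hx⟩))
    (fun x hx y hy h => l4 _ ⟨by simp, hx⟩ _ ⟨by simp, hy⟩ (by simp; linarith))
  obtain ⟨N, hN⟩ := exists_nat_gt (1 / δ)
  have N0 : (0 : ℝ) < N := lt_trans (by positivity) hN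
  have hN' : (1 : ℝ) / N < δ := by rw [div_lt_iff₀ N0]; rw [div_lt_iff₀ hδ] at hN; linarith
  let c : List (Fin (n + 1) → ℝ) → ZMod 2 := fun m => A 0 (srt (m.map lab))
  let f : ℕ → (Fin (n + 1) → ℝ) → (Fin (n + 1) → ℝ) := fun j x => F ((j : ℝ) / N, x)
  have step : ∀ j ≤ N, Z (fun l => c (l.map (f j))) = 1 := by
    intro j
    induction j with
    | zero => intro _; simpa [c, f, Function.comp_def] using z4
    | succ j ih =>
      intro hj
      have e := z2 (pr (f j) (f (j + 1)) (d c)) fun l hl => pr_zero _ _ l _ fun m hm1 hm2 => by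
        have hp : ∀ v ∈ m, ∃ p ∈ Set.Icc 0 1 ×ˢ S n n, v = F p ∧ p.2 ∈ l ∧
            (p.1 = j / N ∨ p.1 = j / N + 1 / N) := by
          intro v hv
          have a1 : (j : ℝ) + 1 ≤ N := by exact_mod_cast hj
          obtain ⟨y, hy, rfl | rfl⟩ := hm2 v hv
          · exact ⟨_, ⟨⟨by positivity, (div_le_one N0).2 (by linarith)⟩, hl.2.1 y hy⟩, rfl, hy,
              Or.inl rfl⟩
          · exact ⟨_, ⟨⟨by positivity, (div_le_one N0).2 (by exact_mod_cast hj)⟩, hl.2.1 y hy⟩, rfl,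
              hy, Or.inr (by push_cast; ring)⟩
        have : ∀ t, A t (srt (m.map lab)) = 0 := by
          intro t
          by_contra h
          have p := srt_perm (m.map lab)
          have := A_len (n + 1) _ t 0 (by omega) (srt_pw _) (fun a ha b hb => by
            obtain ⟨v, hv, rfl⟩ := List.mem_map.1 (p.subset ha)
            obtain ⟨w, hw, rfl⟩ := List.mem_map.1 (p.subset hb)
            obtain ⟨x, x1, rfl, x2, x3⟩ := hp v hv
            obtain ⟨y, y1, rfl, y2, y3⟩ := hp w hw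
            refine l4 x x1 y y1 (max_lt ?_ ((hl.2.2 _ x2 _ y2).trans_lt (half_lt_self hδ)))
            have : (0 : ℝ) < 1 / N := by positivity
            rw [Real.dist_eq, abs_lt]
            rcases x3 with x3 | x3 <;> rcases y3 with y3 | y3 <;> constructor <;> linarith)
            (fun a ha => by
              obtain ⟨v, hv, rfl⟩ := List.mem_map.1 (p.subset ha)
              obtain ⟨x, x1, rfl, -⟩ := hp v hv
              exact ⟨l2 _ (hm x1), by omega⟩) h
          rw [p.length_eq, List.length_map, hm1, hl.1] at this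
          omega
        rw [d_map lab m fun m => A 0 (srt m), d_srt, this, this, add_zero]
      rw [show pr (f j) (f (j + 1)) (d c) = _ from funext fun l => prism (f j) (f (j + 1)) l c, z1,
        z1, z3, zero_add, ih (by omega)] at e
      have := two (1 : ZMod 2)
      linear_combination e - this
  have := step N le_rfl
  rw [z5] at this
  · exact zero_ne_one this
  · intro l
    simp only [List.map_map]
    congr 2
    funext x
    simp [f, N0.ne', hinv]

end Pool.Agent.H69.Kk.Deg
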