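import Mathlib

set_option autoImplicit false
open Set Filter Topology MeasureTheory

namespace Pool.Agent.H69.Kk.Pl

/-- a set in the plane both of whose coordinate projections are null -/
def Thin (Z : Set (ℝ × ℝ)) : Prop :=
  volume (Prod.fst '' Z) = 0 ∧ volume (Prod.snd '' Z) = 0

theorem Thin.mono {Z W : Set (ℝ × ℝ)} (h : Thin W) (hZ : Z ⊆ W) : Thin Z :=
  ⟨measure_mono_null (image_mono hZ) h.1, measure_mono_null (image_mono hZ) h.2⟩

theorem Thin.union {Z W : Set (ℝ × ℝ)} (h : Thin Z) (h' : Thin W) : Thin (Z ∪ W) := by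
  unfold Thin
  rw [image_union, image_union]
  exact ⟨measure_union_null h.1 h'.1, measure_union_null h.2 h'.2⟩

theorem thin_biUnion {ι : Type*} (s : Finset ι) (Z : ι → Set (ℝ × ℝ)) (h : ∀ i ∈ s, Thin (Z i)) :
    Thin (⋃ i ∈ s, Z i) := by
  classical
  induction s using Finset.induction_on with
  | empty => simp [Thin]
  | insert a s ha ih =>
    rw [Finset.set_biUnion_insert]
    exact (h a (Finset.mem_insert_self _ _)).union
      (ih fun i hi => h i (Finset.mem_insert_of_mem hi))

theorem null_conn {S : Set ℝ} (hS : IsPreconnected S) (h : volume S = 0) : S.Subsingleton := by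
  have key : ∀ x ∈ S, ∀ y ∈ S, ¬ x < y := by
    intro x hx y hy hxy
    have h1 : Icc x y ⊆ S := hS.ordConnected.out hx hy
    have h2 := measure_mono_null h1 h
    rw [Real.volume_Icc, ENNReal.ofReal_eq_zero] at h2
    linarith
  intro x hx y hy
  exact le_antisymm (not_lt.1 (key y hy x hx)) (not_lt.1 (key x hx y hy))

/-- connected subsets of thin sets are points -/
theorem Thin.const {Z S : Set (ℝ × ℝ)} (h : Thin Z) (hS : IsPreconnected S) (hSZ : S ⊆ Z) :
    S.Subsingleton := by
  intro x hx y hy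
  have h1 := null_conn (hS.image _ continuous_fst.continuousOn)
    (measure_mono_null (image_mono hSZ) h.1)
  have h2 := null_conn (hS.image _ continuous_snd.continuousOn)
    (measure_mono_null (image_mono hSZ) h.2)
  exact Prod.ext (h1 ⟨x, hx, rfl⟩ ⟨y, hy, rfl⟩) (h2 ⟨x, hx, rfl⟩ ⟨y, hy, rfl⟩)

/-- the coordinate `i` (`false`: first) of a point in the plane -/
def co (i : Bool) (x : ℝ × ℝ) : ℝ := if i then x.2 else x.1

theorem co_continuous (i : Bool) : Continuous (co i) := by
  cases i
  · exact continuous_fst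
  · exact continuous_snd

theorem co_ext {x y : ℝ × ℝ} (h : ∀ i, co i x = co i y) : x = y :=
  Prod.ext (h false) (h true)

theorem good_fst {K : Set (ℝ × ℝ)} (hK : IsCompact K) (h : volume K = 0) :
    ∀ᵐ c : ℝ, Thin (K ∩ {x | x.1 = c}) := by
  have h1 : ∀ᵐ c : ℝ, volume (Prod.mk c ⁻¹' K) = 0 := by
    have := (Measure.measure_prod_null (μ := (volume : Measure ℝ)) (ν := (volume : Measure ℝ))
      hK.measurableSet).1 h
    exact this
  filter_upwards [h1] with c hc
  refine ⟨measure_mono_null (t := {c}) ?_ (by simp), measure_mono_null (t := Prod.mk c ⁻¹' K) ?_ hc⟩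
  · rintro _ ⟨x, hx, rfl⟩
    exact hx.2
  · rintro _ ⟨x, hx, rfl⟩
    have : x.1 = c := hx.2
    show (c, x.2) ∈ K
    rw [← this]
    exact hx.1

theorem good_co {K : Set (ℝ × ℝ)} (hK : IsCompact K) (h : volume K = 0) (i : Bool) :
    ∀ᵐ c : ℝ, Thin (K ∩ {x | co i x = c}) := by
  cases i
  · exact good_fst hK h
  · have hK' : IsCompact (Prod.swap '' K) := hK.image continuous_swap
    have h' : volume (Prod.swap '' K) = 0 := by
      rw [Set.image_swap_eq_preimage_swap]
      exact ((Measure.measurePreserving_swap (μ := (volume : Measure ℝ))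
        (ν := (volume : Measure ℝ))).measure_preimage hK.measurableSet.nullMeasurableSet).trans h
    filter_upwards [good_fst hK' h'] with c hc
    have e : (Prod.swap '' K) ∩ {x | x.1 = c} = Prod.swap '' (K ∩ {x | co true x = c}) := by
      ext ⟨x, y⟩
      simp only [mem_inter_iff, mem_image, mem_ofPred_eq, Prod.exists, Prod.swap_prod_mk,
        Prod.mk.injEq, co, if_true]
      constructor
      · rintro ⟨⟨a, b, hab, rfl, rfl⟩, rfl⟩
        exact ⟨a, b, ⟨hab, rfl⟩, rfl, rfl⟩
      · rintro ⟨a, b, ⟨hab, hb⟩, rfl, rfl⟩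
        exact ⟨⟨a, b, hab, rfl, rfl⟩, hb⟩
    rw [e] at hc
    refine ⟨?_, ?_⟩
    · have := hc.2
      rwa [image_image] at this
    · have := hc.1
      rwa [image_image] at this

theorem good_sphere {K : Set (ℝ × ℝ)} (hK : IsCompact K) (h : volume K = 0) (a : ℝ × ℝ) :
    ∀ᵐ r : ℝ, Thin (K ∩ {x | dist x a = r}) := by
  have h1 : ∀ i : Bool, ∀ᵐ r : ℝ, Thin (K ∩ {x | co i x = co i a + r}) := fun i =>
    (quasiMeasurePreserving_add_left volume (co i a)).ae (good_co hK h i)
  have h2 : ∀ i : Bool, ∀ᵐ r : ℝ, Thin (K ∩ {x | co i x = co i a - r}) := fun i =>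
    (quasiMeasurePreserving_sub_left_of_right_invariant volume (co i a)).ae (good_co hK h i)
  filter_upwards [h1 true, h1 false, h2 true, h2 false] with r a1 a2 a3 a4
  refine (((a1.union a2).union a3).union a4).mono ?_
  rintro x ⟨hx, hr⟩
  have hr' : max (dist x.1 a.1) (dist x.2 a.2) = r := hr
  simp only [mem_union, mem_inter_iff, hx, true_and, mem_ofPred_eq, co, if_true]
  rcases max_choice (dist x.1 a.1) (dist x.2 a.2) with h' | h' <;> rw [h', Real.dist_eq] at hr'
  · rcases abs_choice (x.1 - a.1) with h'' | h'' <;> rw [h''] at hr'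
    · left; left; right
      simp; linarith
    · right
      simp; linarith
  · rcases abs_choice (x.2 - a.2) with h'' | h'' <;> rw [h''] at hr'
    · left; left; left
      linarith
    · left; right
      linarith

theorem exists_good {p : ℝ → Prop} (h : ∀ᵐ r : ℝ, p r) {a b : ℝ} (hab : a < b) :
    ∃ r, a < r ∧ r < b ∧ p r := by
  by_contra hcon
  push Not at hcon
  have h1 : Ioo a b ⊆ {r | ¬ p r} := fun r hr => hcon r hr.1 hr.2
  have h2 := measure_mono_null h1 (ae_iff.1 h)
  rw [Real.volume_Ioo, ENNReal.ofReal_eq_zero] at h2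
  linarith

theorem uncountable_good {p : ℝ → Prop} (h : ∀ᵐ r : ℝ, p r) {a b : ℝ} (hab : a < b) :
    ¬ ({r | a < r ∧ r < b ∧ p r} : Set ℝ).Countable := by
  intro hc
  have h0 : volume ({r | a < r ∧ r < b ∧ p r} : Set ℝ) = 0 := hc.measure_zero _
  have h1 : Ioo a b ⊆ {r | a < r ∧ r < b ∧ p r} ∪ {r | ¬ p r} := fun r hr => by
    by_cases h' : p r
    · exact Or.inl ⟨hr.1, hr.2, h'⟩
    · exact Or.inr h'
  have h2 := measure_mono_null h1 (measure_union_null h0 (ae_iff.1 h))
  rw [Real.volume_Ioo, ENNReal.ofReal_eq_zero] at h2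
  linarith

end Pool.Agent.H69.Kk.Pl
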