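import Pool.Agent.H69.Kk.Top
import Pool.Agent.H69.Kk.Thin
import Pool.Agent.H69.Kk.Cont

set_option autoImplicit false
open Set Filter Topology MeasureTheory
open Pool.Agent.H69.Kk.Top

namespace Pool.Agent.H69.Kk.Pl

variable {X : Type*} [TopologicalSpace X] [CompactSpace X] [T2Space X]
  [LocallyPathConnectedSpace X] [PathConnectedSpace X] [SecondCountableTopology X]

/-- `F` is a closed connected set on which `f` is the constant `p` -/
def Lvl (f : X → ℝ × ℝ) (F : Set X) (p : ℝ × ℝ) : Prop :=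
  IsClosed F ∧ IsConnected F ∧ ∀ z ∈ F, f z = p

omit [SecondCountableTopology X] in
theorem lev (hL : Lifts X) {f : X → ℝ × ℝ} (hf : Continuous f) {S : Set (ℝ × ℝ)}
    (hS : IsClosed S) (hT : Thin (range f ∩ S)) {F G : Set X} (hF : IsConnected F)
    (hG : IsConnected G) (hFS : ∀ z ∈ F, f z ∉ S) (hGS : ∀ z ∈ G, f z ∉ S)
    (h : Sep (f ⁻¹' S) F G) : ∃ M p, Lvl f M p ∧ Sep M F G ∧ p ∈ S := by
  obtain ⟨M, hM, hMc, hMc', hMs⟩ := minimal_sep hL (hS.preimage hf) hF hG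
    (Set.disjoint_left.2 hFS) (Set.disjoint_left.2 hGS) h
  obtain ⟨m, hm⟩ := hMc'.nonempty
  have hsub := hT.const (hMc'.isPreconnected.image f hf.continuousOn) (by
    rintro _ ⟨z, hz, rfl⟩
    exact ⟨mem_range_self z, hM hz⟩)
  exact ⟨M, f m, ⟨hMc, hMc', fun z hz => hsub ⟨z, hz, rfl⟩ ⟨m, hm, rfl⟩⟩, hMs, hM hm⟩

omit [SecondCountableTopology X] in
theorem lev_pt (hL : Lifts X) (hN : ∀ m x y : X, x ≠ m → y ≠ m → JoinedIn {m}ᶜ x y)
    {f : X → ℝ × ℝ} (hf : Continuous f) {i : Bool} {c : ℝ}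
    (hc : Thin (range f ∩ {z | co i z = c})) {x y : X} (hx : co i (f x) < c)
    (hy : c < co i (f y)) : ∃ M p, Lvl f M p ∧ Sep M {x} {y} ∧ co i p = c ∧ M.Nontrivial := by
  have hci := co_continuous i
  have hcf : Continuous fun z => co i (f z) := hci.comp hf
  obtain ⟨M, p, hM, hMs, hp⟩ := lev hL hf (S := {z | co i z = c})
    (isClosed_eq hci continuous_const) hc (isConnected_singleton (x := x))
    (isConnected_singleton (x := y)) (by rintro z rfl h; exact hx.ne h)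
    (by rintro z rfl h; exact hy.ne' h)
    (sep_of_open (isOpen_lt hcf continuous_const) (isOpen_lt continuous_const hcf)
      (Set.disjoint_left.2 fun z (hz : co i (f z) < c) (hz' : c < co i (f z)) => lt_asymm hz hz')
      (fun z hz => lt_or_gt_of_ne hz) (by rintro z rfl; exact hx) (by rintro z rfl; exact hy))
  refine ⟨M, p, hM, hMs, hp, ?_⟩
  rw [← Set.not_subsingleton_iff]
  intro hsub
  obtain ⟨m, hm⟩ := hM.2.1.nonempty
  have hMm : M = {m} := hsub.eq_singleton_of_mem hm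
  have hfm : co i (f m) = c := by rw [hM.2.2 m hm]; exact hp
  have := hMs x rfl y rfl
  rw [hMm] at this
  refine this (hN m x y ?_ ?_)
  · rintro rfl; exact hx.ne hfm
  · rintro rfl; exact hy.ne' hfm

theorem exists_co {x y : ℝ × ℝ} (h : x ≠ y) : ∃ i, co i x ≠ co i y := by
  by_contra hcon
  push Not at hcon
  exact h (co_ext hcon)

/-- the two by two grid -/
theorem grid (hL : Lifts X) (hN : ∀ m x y : X, x ≠ m → y ≠ m → JoinedIn {m}ᶜ x y)
    {f g : X → ℝ × ℝ} (hf : Continuous f) (hg : Continuous g)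
    (hD : Function.Injective fun x => g x - f x) (hf0 : volume (range f) = 0)
    (hg0 : volume (range g) = 0) (hgc : ∃ x y, g x ≠ g y) :
    ∃ (F1 F2 G1 G2 : Set X) (p1 p2 q1 q2 : ℝ × ℝ), Lvl f F1 p1 ∧ Lvl f F2 p2 ∧ Lvl g G1 q1 ∧
      Lvl g G2 q2 ∧ p1 ≠ p2 ∧ q1 ≠ q2 ∧ (F1 ∩ G1).Nonempty ∧ (F1 ∩ G2).Nonempty ∧
      (F2 ∩ G1).Nonempty ∧ (F2 ∩ G2).Nonempty := by
  have hD' : ∀ x y, f x = f y → g x = g y → x = y := fun x y h1 h2 => hD (by simp [h1, h2])
  -- the first level of g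
  have h1 : ∃ (i : Bool) (x y : X), co i (g x) < co i (g y) := by
    obtain ⟨x, y, hxy⟩ := hgc
    obtain ⟨i, hi⟩ := exists_co hxy
    rcases lt_or_gt_of_ne hi with h | h
    · exact ⟨i, x, y, h⟩
    · exact ⟨i, y, x, h⟩
  obtain ⟨i, x, y, hxy⟩ := h1
  obtain ⟨c, hc1, hc2, hc⟩ := exists_good (good_co (isCompact_range hg) hg0 i) hxy
  obtain ⟨G, q0, hG, -, -, hGn⟩ := lev_pt hL hN hg hc hc1 hc2
  -- levels of f
  have h2 : ∃ (i : Bool) (x y : X), x ∈ G ∧ y ∈ G ∧ co i (f x) < co i (f y) := by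
    obtain ⟨x, hx, y, hy, hne⟩ := hGn
    have hfne : f x ≠ f y := fun h => hne (hD' x y h (by rw [hG.2.2 x hx, hG.2.2 y hy]))
    obtain ⟨i, hi⟩ := exists_co hfne
    rcases lt_or_gt_of_ne hi with h | h
    · exact ⟨i, x, y, hx, hy, h⟩
    · exact ⟨i, y, x, hy, hx, h⟩
  obtain ⟨j, x', y', hx', hy', hxy'⟩ := h2
  have hO : IsOpen {z | g z ≠ q0} := isOpen_ne_fun hg continuous_const
  let T : Set ℝ := {r | co j (f x') < r ∧ r < co j (f y') ∧ Thin (range f ∩ {z | co j z = r})}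
  have hT : ¬ T.Countable := uncountable_good (good_co (isCompact_range hf) hf0 j) hxy'
  have h3 : ∀ r ∈ T, ∃ (M : Set X) (p : ℝ × ℝ) (z : X) (B : Set X), Lvl f M p ∧ co j p = r ∧
      (M ∩ G).Nonempty ∧ z ∈ M ∧ g z ≠ q0 ∧ B ∈ TopologicalSpace.countableBasis X ∧ z ∈ B ∧
      B ⊆ pathComponentIn {z | g z ≠ q0} z := by
    intro r hr
    obtain ⟨M, p, hM, hMs, hp, hMn⟩ := lev_pt hL hN hf hr.2.2 hr.1 hr.2.1
    have hMG : (M ∩ G).Nonempty := by
      rw [inter_comm]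
      exact hMs.meets hM.1 hG.2.1.isPreconnected ⟨x', hx', rfl⟩ ⟨y', hy', rfl⟩
    have hz : ∃ z ∈ M, g z ≠ q0 := by
      by_contra hcon
      push Not at hcon
      obtain ⟨a, ha, b, hb, hab⟩ := hMn
      exact hab (hD' a b (by rw [hM.2.2 a ha, hM.2.2 b hb]) (by rw [hcon a ha, hcon b hb]))
    obtain ⟨z, hzM, hzq⟩ := hz
    obtain ⟨B, hB, hzB, hBs⟩ := (TopologicalSpace.isBasis_countableBasis X).exists_subset_of_mem_open
      (mem_pathComponentIn_self (F := {z | g z ≠ q0}) hzq) (hO.pathComponentIn z)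
    exact ⟨M, p, z, B, hM, hp, hMG, hzM, hzq, hB, hzB, hBs⟩
  have : Nonempty X := ⟨x⟩
  choose! M p z B hM hp hMG hzM hzq hB hzB hBs using h3
  have h4 : ∃ r ∈ T, ∃ s ∈ T, r ≠ s ∧ B r = B s := by
    by_contra hcon
    push Not at hcon
    apply hT
    refine MapsTo.countable_of_injOn (f := B) (t := TopologicalSpace.countableBasis X)
      (fun r hr => hB r hr) (fun r hr s hs hrs => ?_)
      (TopologicalSpace.countable_countableBasis X)
    by_contra hne
    exact hcon r hr s hs hne hrs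
  obtain ⟨r, hr, s, hs, hrs, hB'⟩ := h4
  have hj : JoinedIn {z | g z ≠ q0} (z r) (z s) := by
    have : z s ∈ B r := by rw [hB']; exact hzB s hs
    exact hBs r hr this
  obtain ⟨γ, hγ⟩ := hj
  have hC : IsCompact (range γ) := isCompact_range γ.continuous
  have hCc : IsConnected (range γ) := isConnected_range γ.continuous
  -- the second level of g
  have hdc : Continuous fun z => dist (g z) q0 := hg.dist continuous_const
  obtain ⟨w, hw, hwmin⟩ := hC.exists_isMinOn hCc.nonempty hdc.continuousOn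
  have hδ : 0 < dist (g w) q0 := by
    obtain ⟨t, rfl⟩ := hw
    exact dist_pos.2 (hγ t)
  obtain ⟨ρ, hρ0, hρ1, hρ⟩ := exists_good (good_sphere (isCompact_range hg) hg0 q0) hδ
  have hCρ : ∀ z ∈ range γ, ρ < dist (g z) q0 := fun z hz => hρ1.trans_le (hwmin hz)
  have hGρ : ∀ z ∈ G, dist (g z) q0 < ρ := fun z hz => by
    rw [hG.2.2 z hz, dist_self]; exact hρ0
  obtain ⟨G', q1, hG', hGs', hq1⟩ := lev hL hg (S := {x | dist x q0 = ρ})
    (isClosed_eq (continuous_id.dist continuous_const) continuous_const) hρ hG.2.1 hCc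
    (fun z hz h => (hGρ z hz).ne h) (fun z hz h => (hCρ z hz).ne' h)
    (sep_of_open (isOpen_lt hdc continuous_const) (isOpen_lt continuous_const hdc)
      (Set.disjoint_left.2 fun z (hz : dist (g z) q0 < ρ) (hz' : ρ < dist (g z) q0) =>
        lt_asymm hz hz')
      (fun z hz => lt_or_gt_of_ne hz) hGρ hCρ)
  refine ⟨M r, M s, G, G', p r, p s, q0, q1, hM r hr, hM s hs, hG, hG', ?_, ?_, hMG r hr, ?_,
    hMG s hs, ?_⟩
  · intro h
    apply hrs
    rw [← hp r hr, ← hp s hs, h]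
  · rintro rfl
    have : dist q0 q0 = ρ := hq1
    rw [dist_self] at this
    exact hρ0.ne this
  · exact hGs'.meets hG'.1 (hM r hr).2.1.isPreconnected (hMG r hr)
      ⟨z r, hzM r hr, ⟨0, γ.source⟩⟩
  · exact hGs'.meets hG'.1 (hM s hs).2.1.isPreconnected (hMG s hs)
      ⟨z s, hzM s hs, ⟨1, γ.target⟩⟩

/-- the values whose level sets separate `F1` and `F2` -/
def Vals (f : X → ℝ × ℝ) (F1 F2 : Set X) : Set (ℝ × ℝ) :=
  {x | ∀ C : Set X, IsCompact C → IsConnected C → (C ∩ F1).Nonempty → (C ∩ F2).Nonempty →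
    x ∈ f '' C}

omit [LocallyPathConnectedSpace X] [SecondCountableTopology X] [T2Space X] in
theorem vals_compact {f : X → ℝ × ℝ} (hf : Continuous f) {F1 F2 : Set X} (h1 : F1.Nonempty)
    (h2 : F2.Nonempty) : IsCompact (Vals f F1 F2) := by
  have hcl : IsClosed (Vals f F1 F2) := by
    have e : Vals f F1 F2 = ⋂ (C : Set X) (_ : IsCompact C) (_ : IsConnected C)
        (_ : (C ∩ F1).Nonempty) (_ : (C ∩ F2).Nonempty), f '' C := by
      ext x
      simp only [Vals, mem_ofPred_eq, mem_iInter]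
    rw [e]
    exact isClosed_iInter fun C => isClosed_iInter fun hC => isClosed_iInter fun _ =>
      isClosed_iInter fun _ => isClosed_iInter fun _ => (hC.image hf).isClosed
  refine (isCompact_univ.image hf).of_isClosed_subset hcl fun x hx => ?_
  exact hx univ isCompact_univ isConnected_univ (by simpa using h1) (by simpa using h2)

omit [LocallyPathConnectedSpace X] [PathConnectedSpace X] [SecondCountableTopology X]
  [CompactSpace X] [T2Space X] in
theorem vals_left {f : X → ℝ × ℝ} {F1 F2 : Set X} {p1 : ℝ × ℝ} (h : Lvl f F1 p1) :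
    p1 ∈ Vals f F1 F2 := fun C _ _ h1 _ => by
  obtain ⟨z, hz, hz'⟩ := h1
  exact ⟨z, hz, h.2.2 z hz'⟩

omit [LocallyPathConnectedSpace X] [PathConnectedSpace X] [SecondCountableTopology X]
  [CompactSpace X] [T2Space X] in
theorem vals_right {f : X → ℝ × ℝ} {F1 F2 : Set X} {p2 : ℝ × ℝ} (h : Lvl f F2 p2) :
    p2 ∈ Vals f F1 F2 := fun C _ _ _ h1 => by
  obtain ⟨z, hz, hz'⟩ := h1
  exact ⟨z, hz, h.2.2 z hz'⟩

omit [SecondCountableTopology X] in
theorem vals_conn (hL : Lifts X) {f : X → ℝ × ℝ} (hf : Continuous f)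
    (hf0 : volume (range f) = 0) {F1 F2 : Set X} {p1 p2 : ℝ × ℝ} (h1 : Lvl f F1 p1)
    (h2 : Lvl f F2 p2) : p2 ∈ connectedComponentIn (Vals f F1 F2) p1 := by
  classical
  set P := Vals f F1 F2 with hP
  have hPc : IsCompact P := vals_compact hf h1.2.1.nonempty h2.2.1.nonempty
  have hp1 : p1 ∈ P := vals_left h1
  have hp2 : p2 ∈ P := vals_right h2
  by_contra hcon
  have : CompactSpace P := isCompact_iff_compactSpace.1 hPc
  rw [connectedComponentIn_eq_image hp1] at hcon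
  have hcon' : (⟨p2, hp2⟩ : P) ∉ connectedComponent (⟨p1, hp1⟩ : P) := fun h =>
    hcon ⟨_, h, rfl⟩
  rw [connectedComponent_eq_iInter_isClopen, mem_iInter] at hcon'
  push Not at hcon'
  obtain ⟨⟨Z, hZ, hZ1⟩, hZ2⟩ := hcon'
  have hZ2' : (⟨p2, hp2⟩ : P) ∉ Z := hZ2
  set A : Set (ℝ × ℝ) := (↑) '' Z with hA
  set A' : Set (ℝ × ℝ) := (↑) '' Zᶜ with hA'
  have hAc : IsCompact A := (hZ.1.isCompact).image continuous_subtype_val
  have hAc' : IsCompact A' := (hZ.compl.1.isCompact).image continuous_subtype_val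
  have hAA : Disjoint A A' := by
    rw [Set.disjoint_left]
    rintro _ ⟨a, ha, rfl⟩ ⟨b, hb, hab⟩
    exact hb (by rwa [Subtype.coe_injective hab])
  have hPA : ∀ x ∈ P, x ∈ A ∨ x ∈ A' := fun x hx => by
    by_cases h : (⟨x, hx⟩ : P) ∈ Z
    · exact Or.inl ⟨_, h, rfl⟩
    · exact Or.inr ⟨_, h, rfl⟩
  have hp1A : p1 ∈ A := ⟨_, hZ1, rfl⟩
  have hp2A : p2 ∈ A' := ⟨_, hZ2', rfl⟩
  have hr : ∀ a ∈ A, ∃ r : ℝ, 0 < r ∧ Thin (range f ∩ {x | dist x a = r}) ∧
      Disjoint (Metric.closedBall a r) A' := by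
    intro a ha
    have h' : A'ᶜ ∈ 𝓝 a := hAc'.isClosed.isOpen_compl.mem_nhds (Set.disjoint_left.1 hAA ha)
    obtain ⟨ε, hε, hε'⟩ := Metric.nhds_basis_closedBall.mem_iff.1 h'
    obtain ⟨r, hr0, hr1, hr⟩ := exists_good (good_sphere (isCompact_range hf) hf0 a) hε
    refine ⟨r, hr0, hr, Set.disjoint_left.2 fun x hx => ?_⟩
    exact hε' (Metric.closedBall_subset_closedBall hr1.le hx)
  choose! r hr0 hrt hrd using hr
  obtain ⟨t, htA, ht⟩ := hAc.elim_nhds_subcover (fun a => Metric.ball a (r a))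
    (fun a ha => Metric.ball_mem_nhds a (hr0 a ha))
  set W : Set (ℝ × ℝ) := ⋃ a ∈ t, Metric.ball a (r a) with hW
  set W' : Set (ℝ × ℝ) := ⋃ a ∈ t, Metric.closedBall a (r a) with hW'
  have hWo : IsOpen W := isOpen_biUnion fun a _ => Metric.isOpen_ball
  have hWc : IsClosed W' := by
    rw [hW']
    exact t.finite_toSet.isClosed_biUnion fun a _ => Metric.isClosed_closedBall
  have hWW : W ⊆ W' := iUnion₂_mono fun a _ => Metric.ball_subset_closedBall
  have hW'A : ∀ x ∈ W', x ∉ A' := fun x hx => by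
    obtain ⟨a, ha, hxa⟩ := mem_iUnion₂.1 hx
    exact Set.disjoint_left.1 (hrd a (htA a ha)) hxa
  set S : Set (ℝ × ℝ) := W' \ W with hS
  have hSc : IsClosed S := hWc.sdiff hWo
  have hST : Thin (range f ∩ S) := by
    refine (thin_biUnion t (fun a => range f ∩ {x | dist x a = r a})
      fun a ha => hrt a (htA a ha)).mono ?_
    rintro x ⟨hx, hxS⟩
    obtain ⟨a, ha, hxa⟩ := mem_iUnion₂.1 hxS.1
    refine mem_iUnion₂.2 ⟨a, ha, hx, ?_⟩
    refine le_antisymm hxa (not_lt.1 fun hlt => hxS.2 (mem_iUnion₂.2 ⟨a, ha, hlt⟩))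
  have hf1 : ∀ z ∈ F1, f z ∈ W := fun z hz => by rw [h1.2.2 z hz]; exact ht hp1A
  have hf2 : ∀ z ∈ F2, f z ∉ W' := fun z hz h => hW'A _ h (by rw [h2.2.2 z hz]; exact hp2A)
  obtain ⟨M, x, hM, hMs, hxS⟩ := lev hL hf hSc hST h1.2.1 h2.2.1
    (fun z hz h => h.2 (hf1 z hz)) (fun z hz h => hf2 z hz h.1)
    (sep_of_open (U := f ⁻¹' W) (V := f ⁻¹' W'ᶜ) (hWo.preimage hf)
      (hWc.isOpen_compl.preimage hf)
      (Set.disjoint_left.2 fun z hz hz' => hz' (hWW hz))
      (fun z hz => by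
        by_cases h : f z ∈ W
        · exact Or.inl h
        · exact Or.inr fun h' => hz ⟨h', h⟩) hf1 hf2)
  have hxP : x ∈ P := fun C _ hC2 hC3 hC4 => by
    obtain ⟨z, hz, hz'⟩ := hMs.meets hM.1 hC2.isPreconnected hC3 hC4
    exact ⟨z, hz, hM.2.2 z hz'⟩
  rcases hPA x hxP with h | h
  · exact hxS.2 (ht h)
  · exact hW'A x hxS.1 h

omit [SecondCountableTopology X] in
theorem vals_prod (hL : Lifts X) {f g : X → ℝ × ℝ} (hf : Continuous f)
    {F1 F2 G1 G2 : Set X} {p1 p2 q1 q2 : ℝ × ℝ} (h1 : Lvl f F1 p1) (h2 : Lvl f F2 p2)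
    (h3 : Lvl g G1 q1) (h4 : Lvl g G2 q2) (h11 : (F1 ∩ G1).Nonempty)
    (h12 : (F1 ∩ G2).Nonempty) (h21 : (F2 ∩ G1).Nonempty) (h22 : (F2 ∩ G2).Nonempty)
    {p q : ℝ × ℝ} (hp : p ∈ Vals f F1 F2) (hq : q ∈ Vals g G1 G2) :
    ∃ v, f v = p ∧ g v = q := by
  by_cases e1 : p = p1
  · obtain ⟨v, hv, hv'⟩ := hq F1 h1.1.isCompact h1.2.1 h11 h12
    exact ⟨v, by rw [h1.2.2 v hv, e1], hv'⟩
  by_cases e2 : p = p2
  · obtain ⟨v, hv, hv'⟩ := hq F2 h2.1.isCompact h2.2.1 h21 h22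
    exact ⟨v, by rw [h2.2.2 v hv, e2], hv'⟩
  obtain ⟨M, hM, hMc, hMc', hMs⟩ := minimal_sep hL (L := f ⁻¹' {p})
    (isClosed_singleton.preimage hf) h1.2.1 h2.2.1
    (Set.disjoint_left.2 fun z hz h => e1 (by rw [← h1.2.2 z hz]; exact h.symm))
    (Set.disjoint_left.2 fun z hz h => e2 (by rw [← h2.2.2 z hz]; exact h.symm)) (by
      rintro x hx y hy ⟨γ, hγ⟩
      obtain ⟨_, ⟨t, rfl⟩, ht⟩ := hp (range γ) (isCompact_range γ.continuous)
        (isConnected_range γ.continuous) ⟨x, ⟨0, γ.source⟩, hx⟩ ⟨y, ⟨1, γ.target⟩, hy⟩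
      exact hγ t ht)
  have hM1 : (M ∩ G1).Nonempty := by
    rw [inter_comm]
    exact hMs.meets hMc h3.2.1.isPreconnected (by rwa [inter_comm]) (by rwa [inter_comm])
  have hM2 : (M ∩ G2).Nonempty := by
    rw [inter_comm]
    exact hMs.meets hMc h4.2.1.isPreconnected (by rwa [inter_comm]) (by rwa [inter_comm])
  obtain ⟨v, hv, hv'⟩ := hq M hMc.isCompact hMc' hM1 hM2
  exact ⟨v, hM hv, hv'⟩

/-- the determinant of two differences -/
def dt (p p' q q' : ℝ × ℝ) : ℝ := (p'.1 - p.1) * (q'.2 - q.2) - (p'.2 - p.2) * (q'.1 - q.1)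

theorem nonpar {P R : Set (ℝ × ℝ)} (hP : IsPreconnected P) (hR : IsPreconnected R)
    {p1 p2 q1 q2 : ℝ × ℝ} (hp1 : p1 ∈ P) (hp2 : p2 ∈ P) (hp : p1 ≠ p2) (hq1 : q1 ∈ R)
    (hq2 : q2 ∈ R) (hq : q1 ≠ q2)
    (hinj : ∀ p ∈ P, ∀ p' ∈ P, ∀ q ∈ R, ∀ q' ∈ R, q - p = q' - p' → p = p') :
    ∃ p ∈ P, ∃ p' ∈ P, ∃ q ∈ R, ∃ q' ∈ R, dt p p' q q' ≠ 0 := by
  by_contra hcon
  push Not at hcon
  set u := p2 - p1 with hu
  have hu0 : u ≠ 0 := sub_ne_zero.2 hp.symm
  set N := u.1 ^ 2 + u.2 ^ 2 with hN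
  have hN0 : 0 < N := by
    have : u.1 ≠ 0 ∨ u.2 ≠ 0 := by
      by_contra h
      push Not at h
      exact hu0 (Prod.ext h.1 h.2)
    rcases this with h | h <;> positivity
  -- coordinates
  have dec : ∀ w : ℝ × ℝ, u.1 * w.2 - u.2 * w.1 = 0 →
      w = ((w.1 * u.1 + w.2 * u.2) / N) • u := by
    intro w hw
    refine Prod.ext ?_ ?_
    · show w.1 = (w.1 * u.1 + w.2 * u.2) / N * u.1
      rw [div_mul_eq_mul_div, eq_div_iff hN0.ne', hN]
      linear_combination (-u.2) * hw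
    · show w.2 = (w.1 * u.1 + w.2 * u.2) / N * u.2
      rw [div_mul_eq_mul_div, eq_div_iff hN0.ne', hN]
      linear_combination u.1 * hw
  let lam : ℝ × ℝ → ℝ := fun q => ((q - q1).1 * u.1 + (q - q1).2 * u.2) / N
  let mu : ℝ × ℝ → ℝ := fun p => ((p - p1).1 * u.1 + (p - p1).2 * u.2) / N
  have hlam : ∀ q ∈ R, q = q1 + lam q • u := fun q hqR => by
    have h := hcon p1 hp1 p2 hp2 q1 hq1 q hqR
    have := dec (q - q1) (by simpa [dt, hu] using h)
    rw [← sub_eq_iff_eq_add']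
    exact this
  have hl2 : lam q2 ≠ 0 := fun h => by
    have := hlam q2 hq2
    rw [h, zero_smul, add_zero] at this
    exact hq this.symm
  have hmu : ∀ p ∈ P, p = p1 + mu p • u := fun p hpP => by
    have h := hcon p1 hp1 p hpP q1 hq1 q2 hq2
    have h2 := hlam q2 hq2
    have h21 : q2.1 - q1.1 = lam q2 * u.1 := by
      have := congrArg Prod.fst h2
      simp only [Prod.fst_add, Prod.smul_fst, smul_eq_mul] at this
      linarith
    have h22 : q2.2 - q1.2 = lam q2 * u.2 := by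
      have := congrArg Prod.snd h2
      simp only [Prod.snd_add, Prod.smul_snd, smul_eq_mul] at this
      linarith
    have h3 : u.1 * (p - p1).2 - u.2 * (p - p1).1 = 0 := by
      have h4 : lam q2 * (u.1 * (p - p1).2 - u.2 * (p - p1).1) = 0 := by
        unfold dt at h
        rw [h21, h22] at h
        simp only [Prod.fst_sub, Prod.snd_sub]
        linear_combination (-1) * h
      exact (mul_eq_zero.1 h4).resolve_left hl2
    have := dec (p - p1) h3
    rw [← sub_eq_iff_eq_add']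
    exact this
  have hm1 : mu p1 = 0 := by simp [mu]
  have hm2 : mu p2 = 1 := by
    simp only [mu]
    rw [div_eq_one_iff_eq hN0.ne', ← hu, hN]
    ring
  have hl1 : lam q1 = 0 := by simp [lam]
  have hmc : Continuous mu := by fun_prop
  have hlc : Continuous lam := by fun_prop
  rcases lt_or_gt_of_ne hl2 with hneg | hpos
  · set s := min 1 (-lam q2) with hs
    have hs0 : 0 < s := lt_min one_pos (by linarith)
    obtain ⟨p', hp', hps⟩ := hP.intermediate_value hp1 hp2 hmc.continuousOn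
      (show s ∈ Icc (mu p1) (mu p2) by rw [hm1, hm2]; exact ⟨hs0.le, min_le_left _ _⟩)
    obtain ⟨q', hq', hqs⟩ := hR.intermediate_value hq2 hq1 hlc.continuousOn
      (show -s ∈ Icc (lam q2) (lam q1) by
        rw [hl1]; exact ⟨by have := min_le_right 1 (-lam q2); linarith, by linarith⟩)
    have e : q' - p1 = q1 - p' := by
      rw [hlam q' hq', hmu p' hp', hps, hqs]
      module
    have := hinj p1 hp1 p' hp' q' hq' q1 hq1 e
    rw [← this, hm1] at hps
    exact hs0.ne hps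
  · set s := min 1 (lam q2) with hs
    have hs0 : 0 < s := lt_min one_pos hpos
    obtain ⟨p', hp', hps⟩ := hP.intermediate_value hp1 hp2 hmc.continuousOn
      (show s ∈ Icc (mu p1) (mu p2) by rw [hm1, hm2]; exact ⟨hs0.le, min_le_left _ _⟩)
    obtain ⟨q', hq', hqs⟩ := hR.intermediate_value hq1 hq2 hlc.continuousOn
      (show s ∈ Icc (lam q1) (lam q2) by
        rw [hl1]; exact ⟨hs0.le, min_le_right _ _⟩)
    have e : q1 - p1 = q' - p' := by
      rw [hlam q' hq', hmu p' hp', hps, hqs]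
      module
    have := hinj p1 hp1 p' hp' q1 hq1 q' hq' e
    rw [← this, hm1] at hps
    exact hs0.ne hps

theorem comp_compact {P : Set (ℝ × ℝ)} (hP : IsCompact P) {p : ℝ × ℝ} (hp : p ∈ P) :
    IsCompact (connectedComponentIn P p) := by
  have : CompactSpace P := isCompact_iff_compactSpace.1 hP
  rw [connectedComponentIn_eq_image hp]
  exact (isClosed_connectedComponent.isCompact).image continuous_subtype_val

/-- **Planar theorem**, structural form. -/
theorem planar (hL : Lifts X) (hN : ∀ m x y : X, x ≠ m → y ≠ m → JoinedIn {m}ᶜ x y)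
    {f g : X → ℝ × ℝ} (hf : Continuous f) (hg : Continuous g)
    (hD : Function.Injective fun x => g x - f x) (hf0 : volume (range f) = 0)
    (hg0 : volume (range g) = 0) (hgc : ∃ x y, g x ≠ g y) :
    ∃ P R : Set (ℝ × ℝ), IsCompact P ∧ IsConnected P ∧ IsCompact R ∧ IsConnected R ∧
      (∀ p ∈ P, ∀ q ∈ R, ∃ v, f v = p ∧ g v = q) ∧
      ∃ p ∈ P, ∃ p' ∈ P, ∃ q ∈ R, ∃ q' ∈ R, dt p p' q q' ≠ 0 := by
  obtain ⟨F1, F2, G1, G2, p1, p2, q1, q2, h1, h2, h3, h4, hp, hq, h11, h12, h21, h22⟩ :=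
    grid hL hN hf hg hD hf0 hg0 hgc
  have hPc : IsCompact (Vals f F1 F2) := vals_compact hf h1.2.1.nonempty h2.2.1.nonempty
  have hRc : IsCompact (Vals g G1 G2) := vals_compact hg h3.2.1.nonempty h4.2.1.nonempty
  have hp1 : p1 ∈ Vals f F1 F2 := vals_left h1
  have hq1 : q1 ∈ Vals g G1 G2 := vals_left h3
  set P := connectedComponentIn (Vals f F1 F2) p1 with hP
  set R := connectedComponentIn (Vals g G1 G2) q1 with hR
  have hPs : P ⊆ Vals f F1 F2 := connectedComponentIn_subset _ _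
  have hRs : R ⊆ Vals g G1 G2 := connectedComponentIn_subset _ _
  have hP1 : p1 ∈ P := mem_connectedComponentIn hp1
  have hR1 : q1 ∈ R := mem_connectedComponentIn hq1
  have hP2 : p2 ∈ P := vals_conn hL hf hf0 h1 h2
  have hR2 : q2 ∈ R := vals_conn hL hg hg0 h3 h4
  have hprod : ∀ p ∈ P, ∀ q ∈ R, ∃ v, f v = p ∧ g v = q := fun p hp' q hq' =>
    vals_prod hL hf h1 h2 h3 h4 h11 h12 h21 h22 (hPs hp') (hRs hq')
  refine ⟨P, R, comp_compact hPc hp1,
    ⟨⟨p1, hP1⟩, isPreconnected_connectedComponentIn⟩,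
    comp_compact hRc hq1,
    ⟨⟨q1, hR1⟩, isPreconnected_connectedComponentIn⟩, hprod,
    nonpar isPreconnected_connectedComponentIn isPreconnected_connectedComponentIn hP1 hP2 hp
      hR1 hR2 hq ?_⟩
  intro p hp p' hp' q hq q' hq' e
  obtain ⟨v, hv1, hv2⟩ := hprod p hp q hq
  obtain ⟨w, hw1, hw2⟩ := hprod p' hp' q' hq'
  have : v = w := hD (by simp only [hv1, hv2, hw1, hw2]; exact e)
  rw [← hv1, ← hw1, this]

end Pool.Agent.H69.Kk.Pl
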