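import Mathlib

set_option autoImplicit false
open MeasureTheory Set Polynomial Finset
open scoped Nat

namespace Pool.Agent.H69.Kk.PolyInt

theorem fd (P : ℝ[X]) (t h : ℝ) (hh : 0 < h) :
    ∑ k ∈ range (P.natDegree + 1), ((-1 : ℝ) ^ (P.natDegree - k) * P.natDegree.choose k) *
      P.eval (t + k * h) = P.leadingCoeff * h ^ P.natDegree * (P.natDegree ! : ℕ) := by
  set Q : ℝ[X] := P.comp (C h * X + C t) with hQ
  have h1 : (C h * X + C t : ℝ[X]).natDegree = 1 := natDegree_linear hh.ne'
  have hQd : Q.natDegree = P.natDegree := by rw [hQ, natDegree_comp, h1, mul_one]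
  have hQl : Q.leadingCoeff = P.leadingCoeff * h ^ P.natDegree := by
    rw [hQ, leadingCoeff_comp (by rw [h1]; exact one_ne_zero), leadingCoeff_linear hh.ne']
  have e := congrFun Q.fwdDiff_iter_degree_eq_factorial 0
  rw [fwdDiff_iter_eq_sum_shift, hQd] at e
  simp only [Pi.smul_apply, hQl, smul_eq_mul, Pi.natCast_apply] at e
  rw [← e]
  refine Finset.sum_congr rfl fun k _ => ?_
  simp only [hQ, eval_comp, eval_add, eval_mul, eval_C, eval_X, zsmul_eq_mul, nsmul_eq_mul]
  push_cast
  congr 2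
  ring

theorem poly_int (P : ℝ[X]) (n : ℕ) (hn : P.natDegree ≤ n) (t1 t2 : ℝ) (h12 : t1 ≤ t2) :
    |P.coeff n| * (n ! : ℕ) * ((t2 - t1) / (n + 1)) ^ (n + 1) ≤
      2 ^ n * ∫ t in t1..t2, |P.eval t| := by
  have hI : 0 ≤ ∫ t in t1..t2, |P.eval t| :=
    intervalIntegral.integral_nonneg h12 fun _ _ => abs_nonneg _
  rcases hn.lt_or_eq with hn | hn
  · rw [coeff_eq_zero_of_natDegree_lt hn]
    simp only [abs_zero, zero_mul]
    positivity
  rcases h12.eq_or_lt with h12 | h12
  · subst h12
    simp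
  subst hn
  set n := P.natDegree with hn
  set h : ℝ := (t2 - t1) / (n + 1) with hh
  have h0 : 0 < h := div_pos (by linarith) (by positivity)
  have hcont : Continuous fun t => |P.eval t| := P.continuous.abs
  have e1 : ∀ k : ℕ, ∫ t in t1..(t1 + h), |P.eval (t + k * h)| =
      ∫ t in (t1 + k * h)..(t1 + (k + 1 : ℕ) * h), |P.eval t| := by
    intro k
    rw [intervalIntegral.integral_comp_add_right (fun t => |P.eval t|) (k * h)]
    congr 1
    push_cast; ring
  have e2 : ∑ k ∈ range (n + 1), ∫ t in (t1 + k * h)..(t1 + (k + 1 : ℕ) * h), |P.eval t| =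
      ∫ t in t1..t2, |P.eval t| := by
    have := intervalIntegral.sum_integral_adjacent_intervals (μ := volume)
      (f := fun t => |P.eval t|) (a := fun k : ℕ => t1 + k * h) (n := n + 1)
      (fun k _ => hcont.intervalIntegrable _ _)
    rw [this]
    congr 1
    · simp
    · simp only [hh]
      push_cast
      field_simp
      ring
  have e3 : ∀ t : ℝ, |P.leadingCoeff| * h ^ n * (n ! : ℕ) ≤
      ∑ k ∈ range (n + 1), (n.choose k : ℝ) * |P.eval (t + k * h)| := by
    intro t
    have := fd P t h h0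
    calc |P.leadingCoeff| * h ^ n * (n ! : ℕ) = |P.leadingCoeff * h ^ n * (n ! : ℕ)| := by
          rw [abs_mul, abs_mul, abs_of_pos (pow_pos h0 n), Nat.abs_cast]
      _ = |∑ k ∈ range (n + 1), ((-1 : ℝ) ^ (n - k) * n.choose k) * P.eval (t + k * h)| := by
          rw [this]
      _ ≤ ∑ k ∈ range (n + 1), |((-1 : ℝ) ^ (n - k) * n.choose k) * P.eval (t + k * h)| :=
          abs_sum_le_sum_abs _ _
      _ = _ := by
          refine Finset.sum_congr rfl fun k _ => ?_
          rw [abs_mul, abs_mul, abs_pow, abs_neg, abs_one, one_pow, one_mul, Nat.abs_cast]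
  have hci : ∀ k : ℕ, Continuous fun t : ℝ => (n.choose k : ℝ) * |P.eval (t + k * h)| := fun k =>
    continuous_const.mul (P.continuous.comp (by fun_prop)).abs
  have e4 : (|P.leadingCoeff| * h ^ n * (n ! : ℕ)) * h ≤
      ∫ t in t1..(t1 + h), ∑ k ∈ range (n + 1), (n.choose k : ℝ) * |P.eval (t + k * h)| := by
    have : ∫ _t in t1..(t1 + h), |P.leadingCoeff| * h ^ n * (n ! : ℕ) =
        (|P.leadingCoeff| * h ^ n * (n ! : ℕ)) * h := by
      rw [intervalIntegral.integral_const]
      simp [mul_comm]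
    rw [← this]
    refine intervalIntegral.integral_mono_on (by linarith) (by simp) ?_ fun t _ => e3 t
    exact (continuous_finsetSum _ fun k _ => hci k).intervalIntegrable _ _
  have e5 : ∫ t in t1..(t1 + h), ∑ k ∈ range (n + 1), (n.choose k : ℝ) * |P.eval (t + k * h)| =
      ∑ k ∈ range (n + 1), (n.choose k : ℝ) *
        ∫ t in (t1 + k * h)..(t1 + (k + 1 : ℕ) * h), |P.eval t| := by
    rw [intervalIntegral.integral_finsetSum fun k _ => (hci k).intervalIntegrable _ _]
    refine Finset.sum_congr rfl fun k _ => ?_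
    rw [intervalIntegral.integral_const_mul, e1]
  have e6 : ∑ k ∈ range (n + 1), (n.choose k : ℝ) *
        ∫ t in (t1 + k * h)..(t1 + (k + 1 : ℕ) * h), |P.eval t| ≤
      2 ^ n * ∫ t in t1..t2, |P.eval t| := by
    rw [← e2, Finset.mul_sum]
    refine Finset.sum_le_sum fun k hk => mul_le_mul_of_nonneg_right ?_ ?_
    · have : n.choose k ≤ 2 ^ n := by
        rw [← Nat.sum_range_choose]
        exact Finset.single_le_sum (f := fun k => n.choose k) (fun _ _ => Nat.zero_le _) hk
      exact_mod_cast this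
    · refine intervalIntegral.integral_nonneg ?_ fun _ _ => abs_nonneg _
      push_cast
      nlinarith
  calc |P.coeff n| * (n ! : ℕ) * h ^ (n + 1) = (|P.leadingCoeff| * h ^ n * (n ! : ℕ)) * h := by
        rw [leadingCoeff, ← hn]; ring
    _ ≤ _ := e4
    _ = _ := e5
    _ ≤ _ := e6

end Pool.Agent.H69.Kk.PolyInt
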