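import Pool.Agent.H69.Kk.Cont
import Pool.Agent.H69.Kk.PolyInt
import Pool.Agent.H69.Kk.Slice

set_option autoImplicit false
open MeasureTheory Set Filter Topology Matrix
open scoped ENNReal

namespace Pool.Agent.H69.Kk

variable {d : ℕ}

/-- `Γ` is a compact connected set of pairs (slope, position) which contains `(p, x)` and
`(q, y)`; for example the graph over `[p, q]` of a continuous function from `x` to `y`. -/
def Joins (Γ : Set (ℝ × (Fin d → ℝ))) (p q : ℝ) (x y : Fin d → ℝ) : Prop :=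
  IsCompact Γ ∧ IsConnected Γ ∧ (p, x) ∈ Γ ∧ (q, y) ∈ Γ

/-- `K` contains the points `(z_1 + … + z_d + t s, t)` for all `(s_i, z_i) ∈ Γ_i` and the
heights `t ∈ T`: the parts over `T` of lines with slopes `s = (s_1, …, s_d)` whose positions are
sums of contributions of the single coordinates of the slope. -/
def ContainsLines (K : Set (EuclideanSpace ℝ (Fin (d + 1))))
    (Γ : Fin d → Set (ℝ × (Fin d → ℝ))) (T : Set ℝ) : Prop :=
  ∀ (s : Fin d → ℝ) (z : Fin d → Fin d → ℝ), (∀ i, (s i, z i) ∈ Γ i) →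
    ∀ t ∈ T, pt t (∑ i, z i + t • s) ∈ K

/-- The matrix with the columns `y_i - x_i + t (q_i - p_i) e_i`. -/
def disp (p q : Fin d → ℝ) (x y : Fin d → Fin d → ℝ) (t : ℝ) : Matrix (Fin d) (Fin d) ℝ :=
  fun j i => y i j - x i j + if j = i then t * (q i - p i) else 0

/-- The constant `d! / (2^d (d + 1)^(d + 1))`. -/
noncomputable def cst (d : ℕ) : ℝ := (d.factorial : ℝ) / (2 ^ d * ((d : ℝ) + 1) ^ (d + 1))

theorem cst_pos (d : ℕ) : 0 < cst d := by
  unfold cst
  have : (0 : ℝ) < (d.factorial : ℝ) := by exact_mod_cast d.factorial_pos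
  positivity

theorem slice_bound {K : Set (EuclideanSpace ℝ (Fin (d + 1)))}
    {Γ : Fin d → Set (ℝ × (Fin d → ℝ))} {T : Set ℝ} {p q : Fin d → ℝ} {x y : Fin d → Fin d → ℝ}
    (hΓ : ∀ i, Joins (Γ i) (p i) (q i) (x i) (y i)) (hK : ContainsLines K Γ T) (t : ℝ)
    (ht : t ∈ T) : ENNReal.ofReal |(disp p q x y t).det| ≤ volume (slice K t) := by
  classical
  let φ : ∀ _ : Fin d, ℝ × (Fin d → ℝ) → (Fin d → ℝ) := fun i g => g.2 + Pi.single i (t * g.1)
  have hφ : ∀ i, Continuous (φ i) := fun i =>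
    continuous_snd.add ((continuous_single i).comp (continuous_const.mul continuous_fst))
  have h := Cont.continua (fun i => φ i '' Γ i) (fun i => (hΓ i).1.image (hφ i))
    (fun i => (hΓ i).2.1.image _ (hφ i).continuousOn) (fun i => φ i (p i, x i))
    (fun i => φ i (q i, y i)) (fun i => mem_image_of_mem _ (hΓ i).2.2.1)
    (fun i => mem_image_of_mem _ (hΓ i).2.2.2)
  have e : Cont.mat (fun i => φ i (q i, y i) - φ i (p i, x i)) = disp p q x y t := by
    funext j i
    simp only [Cont.mat, disp, φ, Pi.sub_apply, Pi.add_apply, Pi.single_apply]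
    split_ifs <;> ring
  rw [e] at h
  refine h.trans (measure_mono ?_)
  rintro _ ⟨P, hP, rfl⟩
  choose g hg hg' using hP
  have := hK (fun i => (g i).1) (fun i => (g i).2) (fun i => hg i) t ht
  show pt t (∑ i, P i) ∈ K
  have e2 : ∑ i, P i = ∑ i, (g i).2 + t • (fun i => (g i).1) := by
    have e3 : t • (fun i => (g i).1) = ∑ i, (Pi.single i (t * (g i).1) : Fin d → ℝ) := by
      rw [Finset.univ_sum_single]; rfl
    rw [e3, ← Finset.sum_add_distrib]
    exact Finset.sum_congr rfl fun i _ => (hg' i).symm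
  rw [e2]
  exact this

theorem vol_bound {K : Set (EuclideanSpace ℝ (Fin (d + 1)))} (B D : Matrix (Fin d) (Fin d) ℝ)
    (t1 t2 : ℝ) (h12 : t1 ≤ t2)
    (h : ∀ t ∈ Icc t1 t2, ENNReal.ofReal |(t • B + D).det| ≤ volume (slice K t)) :
    ENNReal.ofReal (cst d * |B.det| * (t2 - t1) ^ (d + 1)) ≤ volume K := by
  set P : Polynomial ℝ := det ((Polynomial.X : Polynomial ℝ) • B.map Polynomial.C +
    D.map Polynomial.C) with hP
  have hPe : ∀ t, P.eval t = (t • B + D).det := by
    intro t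
    rw [hP, ← Polynomial.coe_evalRingHom, RingHom.map_det]
    congr 1
    ext i j
    simp only [RingHom.mapMatrix_apply, Matrix.map_apply, Matrix.add_apply, Matrix.smul_apply,
      smul_eq_mul, map_add, Polynomial.coe_evalRingHom, Polynomial.eval_C, Polynomial.eval_mul,
      Polynomial.eval_X]
  have hdeg : P.natDegree ≤ d := by
    simpa using Polynomial.natDegree_det_X_add_C_le B D
  have hco : P.coeff d = B.det := by
    simpa using Polynomial.coeff_det_X_add_C_card B D
  have h1 := slices K (Icc t1 t2) measurableSet_Icc (fun t => ENNReal.ofReal |P.eval t|)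
    (fun t ht => by rw [hPe]; exact h t ht)
  refine le_trans ?_ h1
  have hc : Continuous fun t => |P.eval t| := P.continuous.abs
  rw [← ofReal_integral_eq_lintegral_ofReal (hc.continuousOn.integrableOn_Icc)
    (Eventually.of_forall fun t => abs_nonneg _), integral_Icc_eq_integral_Ioc,
    ← intervalIntegral.integral_of_le h12]
  refine ENNReal.ofReal_le_ofReal ?_
  have h2 := PolyInt.poly_int P d hdeg t1 t2 h12
  rw [hco] at h2
  have h3 : (0 : ℝ) < 2 ^ d := by positivity
  rw [← mul_le_mul_iff_of_pos_left h3]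
  refine le_trans (le_of_eq ?_) h2
  unfold cst
  rw [div_pow]
  have : ((d : ℝ) + 1) ^ (d + 1) ≠ 0 := by positivity
  field_simp

theorem disp_eq (p q : Fin d → ℝ) (x y : Fin d → Fin d → ℝ) (t : ℝ) :
    disp p q x y t = t • diagonal (fun i => q i - p i) +
      Matrix.of fun j i => y i j - x i j := by
  funext j i
  simp only [disp, Matrix.add_apply, Matrix.smul_apply, diagonal_apply, smul_eq_mul, of_apply]
  split_ifs with h
  · subst h; ring
  · ring

theorem vol_curves {K : Set (EuclideanSpace ℝ (Fin (d + 1)))}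
    {Γ : Fin d → Set (ℝ × (Fin d → ℝ))} {p q : Fin d → ℝ} {x y : Fin d → Fin d → ℝ}
    (hΓ : ∀ i, Joins (Γ i) (p i) (q i) (x i) (y i)) (hpq : ∀ i, p i ≤ q i) (t1 t2 : ℝ)
    (h12 : t1 ≤ t2) (hK : ContainsLines K Γ (Icc t1 t2)) :
    ENNReal.ofReal (cst d * (∏ i, (q i - p i)) * (t2 - t1) ^ (d + 1)) ≤ volume K := by
  have := vol_bound (K := K) (diagonal fun i => q i - p i)
    (Matrix.of fun j i => y i j - x i j) t1 t2 h12
    (fun t ht => by rw [← disp_eq]; exact slice_bound hΓ hK t ht)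
  rwa [det_diagonal, abs_of_nonneg (Finset.prod_nonneg fun i _ => sub_nonneg.2 (hpq i))] at this

theorem graph_joins (a : ℝ → Fin d → ℝ) (p q : ℝ) (hpq : p ≤ q) (ha : ContinuousOn a (Icc p q)) :
    Joins ((fun s => (s, a s)) '' Icc p q) p q (a p) (a q) :=
  ⟨isCompact_Icc.image_of_continuousOn (continuousOn_id.prodMk ha),
    (isConnected_Icc hpq).image _ (continuousOn_id.prodMk ha),
    mem_image_of_mem _ (left_mem_Icc.2 hpq), mem_image_of_mem _ (right_mem_Icc.2 hpq)⟩

theorem vol_functions {K : Set (EuclideanSpace ℝ (Fin (d + 1)))} (a : Fin d → ℝ → Fin d → ℝ)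
    (p q : Fin d → ℝ) (hpq : ∀ i, p i ≤ q i) (ha : ∀ i, ContinuousOn (a i) (Icc (p i) (q i)))
    (t1 t2 : ℝ) (h12 : t1 ≤ t2)
    (hK : ∀ v ∈ Icc p q, ∀ t ∈ Icc t1 t2, pt t (∑ i, a i (v i) + t • v) ∈ K) :
    ENNReal.ofReal (cst d * (∏ i, (q i - p i)) * (t2 - t1) ^ (d + 1)) ≤ volume K := by
  refine vol_curves (Γ := fun i => (fun s => (s, a i s)) '' Icc (p i) (q i))
    (fun i => graph_joins (a i) (p i) (q i) (hpq i) (ha i)) hpq t1 t2 h12 ?_
  intro s z hz t ht
  have h1 : s ∈ Icc p q := by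
    constructor <;> intro i <;> obtain ⟨u, hu, hu'⟩ := hz i <;> simp only [Prod.mk.injEq] at hu'
    · rw [← hu'.1]; exact hu.1
    · rw [← hu'.1]; exact hu.2
  have h2 : ∀ i, z i = a i (s i) := fun i => by
    obtain ⟨u, hu, hu'⟩ := hz i
    simp only [Prod.mk.injEq] at hu'
    rw [← hu'.1, hu'.2]
  simp only [h2]
  exact hK s h1 t ht

/-- closed sets which contain some nondegenerate part of each line; countably many selections -/
theorem closed_functions {K : Set (EuclideanSpace ℝ (Fin (d + 1)))} (hKc : IsClosed K)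
    (a : ℕ → Fin d → ℝ → Fin d → ℝ) (p q : Fin d → ℝ) (hpq : ∀ i, p i < q i)
    (ha : ∀ k i, ContinuousOn (a k i) (Icc (p i) (q i)))
    (hK : ∀ v ∈ Icc p q, ∃ k, ∃ t1 t2 : ℝ, t1 < t2 ∧
      ∀ t ∈ Icc t1 t2, pt t (∑ i, a k i (v i) + t • v) ∈ K) :
    0 < volume K := by
  classical
  have hcont : ∀ k, ∀ t : ℝ, ContinuousOn
      (fun v : Fin d → ℝ => pt t (∑ i, a k i (v i) + t • v)) (Icc p q) := by
    intro k t
    have h1 : ContinuousOn (fun v : Fin d → ℝ => ∑ i, a k i (v i) + t • v) (Icc p q) := by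
      refine ContinuousOn.add (continuousOn_finsetSum _ fun i _ => ?_) (by fun_prop)
      exact (ha k i).comp (continuous_apply i).continuousOn fun v hv => ⟨hv.1 i, hv.2 i⟩
    exact (pt_continuous d).comp_continuousOn (continuousOn_const.prodMk h1)
  let J : Type := ℕ × {r : ℚ × ℚ // r.1 < r.2}
  let C : J → Set (Icc p q) := fun r =>
    {v | ∀ t ∈ Icc (r.2.1.1 : ℝ) r.2.1.2,
      pt t (∑ i, a r.1 i ((v : Fin d → ℝ) i) + t • (v : Fin d → ℝ)) ∈ K}
  have hCc : ∀ r, IsClosed (C r) := by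
    intro r
    simp only [C, Set.ofPred_forall]
    refine isClosed_iInter fun t => isClosed_iInter fun _ => ?_
    exact hKc.preimage (continuousOn_iff_continuous_domRestrict.1 (hcont r.1 t))
  have hCu : ⋃ r, C r = univ := by
    refine eq_univ_of_forall fun v => ?_
    obtain ⟨k, t1, t2, h12, h⟩ := hK v v.2
    obtain ⟨r1, h1, h2⟩ := exists_rat_btwn h12
    obtain ⟨r2, h3, h4⟩ := exists_rat_btwn h2
    refine mem_iUnion.2 ⟨⟨k, ⟨(r1, r2), by exact_mod_cast h3⟩⟩, fun t ht => h t ⟨?_, ?_⟩⟩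
    · exact h1.le.trans ht.1
    · exact ht.2.trans h4.le
  have hne : Nonempty (Icc p q) := ⟨⟨p, le_rfl, fun i => (hpq i).le⟩⟩
  have : CompactSpace (Icc p q) := isCompact_iff_compactSpace.1 isCompact_Icc
  obtain ⟨r, v, hv⟩ := nonempty_interior_of_iUnion_of_closed hCc hCu
  obtain ⟨ε, hε, hball⟩ := Metric.mem_nhds_iff.1 (mem_interior_iff_mem_nhds.1 hv)
  let p' : Fin d → ℝ := fun i => max (p i) ((v : Fin d → ℝ) i - ε / 2)
  let q' : Fin d → ℝ := fun i => min (q i) ((v : Fin d → ℝ) i + ε / 2)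
  have hv1 : ∀ i, p i ≤ (v : Fin d → ℝ) i := v.2.1
  have hv2 : ∀ i, (v : Fin d → ℝ) i ≤ q i := v.2.2
  have hpq' : ∀ i, p' i < q' i := by
    intro i
    refine max_lt (lt_min (hpq i) ?_) (lt_min ?_ (by linarith))
    · have := hv1 i; linarith
    · have := hv2 i; linarith
  have hsub : Icc p' q' ⊆ Icc p q := fun w hw =>
    ⟨fun i => (le_max_left _ _).trans (hw.1 i), fun i => (hw.2 i).trans (min_le_left _ _)⟩
  have hr : (r.2.1.1 : ℝ) < r.2.1.2 := by exact_mod_cast r.2.2
  have h := vol_functions (K := K) (a r.1) p' q' (fun i => (hpq' i).le)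
    (fun i => (ha r.1 i).mono (Icc_subset_Icc (le_max_left _ _) (min_le_left _ _)))
    (r.2.1.1 : ℝ) (r.2.1.2 : ℝ) hr.le (fun w hw t ht => by
      have hw' := hsub hw
      have : (⟨w, hw'⟩ : Icc p q) ∈ C r := by
        apply hball
        rw [Metric.mem_ball, Subtype.dist_eq]
        refine lt_of_le_of_lt ((dist_pi_le_iff (by positivity)).2 fun i => ?_)
          (half_lt_self hε)
        rw [Real.dist_eq, abs_le]
        have h1 := (le_max_right _ _).trans (hw.1 i)
        have h2 := (hw.2 i).trans (min_le_right _ _)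
        constructor
        · show -(ε / 2) ≤ w i - (v : Fin d → ℝ) i
          linarith
        · show w i - (v : Fin d → ℝ) i ≤ ε / 2
          linarith
      exact this t ht)
  refine lt_of_lt_of_le ?_ h
  rw [ENNReal.ofReal_pos]
  have := cst_pos d
  have h2 : 0 < ∏ i, (q' i - p' i) := Finset.prod_pos fun i _ => sub_pos.2 (hpq' i)
  have h3 : 0 < (r.2.1.2 : ℝ) - r.2.1.1 := sub_pos.2 hr
  positivity

theorem slice_periodic {K : Set (EuclideanSpace ℝ (Fin (d + 1)))} (A : Matrix (Fin d) (Fin d) ℝ)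
    (a : (Fin d → ℝ) → (Fin d → ℝ)) (ha : Continuous a)
    (hper : ∀ v i, a (v + Pi.single i 1) = a v + fun j => A j i) (T : Set ℝ)
    (hK : ∀ v ∈ Icc (0 : Fin d → ℝ) 1, ∀ t ∈ T, pt t (a v + t • v) ∈ K) (t : ℝ) (ht : t ∈ T) :
    ENNReal.ofReal |(t • (1 : Matrix (Fin d) (Fin d) ℝ) + A).det| ≤ volume (slice K t) := by
  refine (Tile.det_le_volume _ (fun v => a v + t • v) (by fun_prop) fun v i => ?_).trans
    (measure_mono ?_)
  · rw [hper, smul_add]
    funext j
    simp only [Pi.add_apply, Pi.smul_apply, Matrix.add_apply, Matrix.smul_apply, smul_eq_mul,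
      Pi.single_apply, Matrix.one_apply]
    split_ifs <;> ring
  · rintro _ ⟨v, hv, rfl⟩
    exact hK v hv t ht

end Pool.Agent.H69.Kk
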