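import Pool.Agent.H69.Kk.Closed
import Pool.Agent.H69.L8.H023R3.KakSet
import Pool.Agent.H69.L8.Q321.Kk.Fib

set_option autoImplicit false
open Set Filter Topology MeasureTheory Metric
open scoped ENNReal

namespace Pool.Agent.H69.Kk.Pl

open Pool.Agent.Q321.Kk (fibre dim_base_le)

/-- Euclidean space of dimension `n`. -/
abbrev Eu (n : ℕ) := EuclideanSpace ℝ (Fin n)

/-- `β` is a lower bound for the Hausdorff dimension of all sets of `ℝ^(m+1)` which meet the line
`a e + ℝ e` in a set of positive outer length for all `e` in `S`. -/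
def FamilyBound {m : ℕ} (a : Eu (m + 1) → Eu (m + 1)) (S : Set (sphere (0 : Eu (m + 1)) 1))
    (β : ℝ) : Prop :=
  ∀ A : Set (Eu (m + 1)), (∀ e ∈ S, 0 < volume {t : ℝ | a e + t • (e : Eu (m + 1)) ∈ A}) →
    ENNReal.ofReal β ≤ dimH A

/-- For every `e` in `S` there are a box `Q` in `ℝ^k` and countably many maps `b j` which are
continuous and block triangular on `Q`, such that for every `u` in `Q` the set `K` contains a
nondegenerate segment of one of the lines `{(b j u + t u, a e + t e) : t ∈ ℝ}`. -/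
def ContainsSegments {k m : ℕ} (a : Eu (m + 1) → Eu (m + 1))
    (S : Set (sphere (0 : Eu (m + 1)) 1)) (K : Set ((Fin k → ℝ) × Eu (m + 1))) : Prop :=
  ∀ e ∈ S, ∃ (b : ℕ → (Fin k → ℝ) → Fin k → ℝ) (p q : Fin k → ℝ), (∀ i, p i < q i) ∧
    (∀ j, Blocks (b j) p q) ∧ ∀ u ∈ Icc p q, ∃ j, ∃ s s' : ℝ, s < s' ∧
      ∀ t ∈ Icc s s', (b j u + t • u, a e + t • (e : Eu (m + 1))) ∈ K

/-- the base points with big fibres -/
def big {k m : ℕ} (K : Set ((Fin k → ℝ) × Eu (m + 1))) : Set (Eu (m + 1)) :=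
  {z | volume (fibre K z) ≠ 0}

theorem big_base {k m : ℕ} {a : Eu (m + 1) → Eu (m + 1)} {S : Set (sphere (0 : Eu (m + 1)) 1)}
    {K : Set ((Fin k → ℝ) × Eu (m + 1))} (hK : IsClosed K) (h : ContainsSegments a S K) :
    ∀ e ∈ S, 0 < volume {t : ℝ | a e + t • (e : Eu (m + 1)) ∈ big K} := by
  intro e he
  obtain ⟨b, p, q, hpq, hb, hs⟩ := h e he
  obtain ⟨j, r, s, t1, t2, hrs, hsub, h12, h'⟩ := baire_sub hpq (fun j => (hb j).1)
    (P := fun t => {x | (x, a e + t • (e : Eu (m + 1))) ∈ K})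
    (fun t => hK.preimage (by fun_prop :
      Continuous fun x : Fin k → ℝ => (x, a e + t • (e : Eu (m + 1))))) hs
  have hb' := (hb j).mono hsub
  have hc := tri k (b j) r s hrs hb'.1 hb'.2
  have h1 : 0 < volume (Icc t1 t2) := by
    rw [Real.volume_Icc]
    exact ENNReal.ofReal_pos.2 (sub_pos.2 h12)
  rw [← measure_sdiff_null (hc.measure_zero volume)] at h1
  refine h1.trans_le (measure_mono ?_)
  rintro t ⟨ht1, ht2⟩
  refine fun h3 => ht2 (measure_mono_null ?_ h3)
  rintro _ ⟨u, hu, rfl⟩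
  exact h' u hu t ht1

theorem lower {k m : ℕ} {β : ℝ} (hβ : 0 < β) {K : Set ((Fin k → ℝ) × Eu (m + 1))}
    (h1 : ENNReal.ofReal β ≤ dimH (big K)) : ENNReal.ofReal (k + β) ≤ dimH K := by
  by_contra hcon
  push Not at hcon
  set x : ℝ := (dimH K).toReal with hx
  have hxt : dimH K ≠ ⊤ := ne_top_of_lt hcon
  have hx1 : x < k + β := (ENNReal.lt_ofReal_iff_toReal_lt hxt).1 hcon
  set s' : ℝ := max ((x - k + β) / 2) (β / 2) with hs'
  have hs0 : 0 < s' := lt_max_of_lt_right (by positivity)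
  have hs1 : s' < β := max_lt (by linarith) (by linarith)
  have hs2 : x < k + s' := by
    have := le_max_left ((x - k + β) / 2) (β / 2)
    rw [← hs'] at this
    linarith
  have h2 := dim_base_le hs0 (K := K) ((ENNReal.lt_ofReal_iff_toReal_lt hxt).2 hs2)
  have h3 : ENNReal.ofReal s' < ENNReal.ofReal β := (ENNReal.ofReal_lt_ofReal_iff hβ).2 hs1
  exact absurd (h1.trans h2) (not_le.2 h3)

theorem finrank_le {k m : ℕ} (K : Set ((Fin k → ℝ) × Eu (m + 1))) :
    dimH K ≤ ((k + m + 1 : ℕ) : ℝ≥0∞) := by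
  calc dimH K ≤ dimH (univ : Set ((Fin k → ℝ) × Eu (m + 1))) := dimH_mono (subset_univ _)
    _ = _ := by
      rw [Real.dimH_univ_eq_finrank]
      simp
      ring

open Pool.Agent.H742R2.Kk in
/-- measurable planar families are reducible -/
theorem reducible_two {a : Eu 2 → Eu 2} (ha : Measurable a) : Reducible 2 a := by
  refine ⟨ha, LinearIsometryEquiv.refl ℝ _, fun θ => ?_⟩
  let e1 : E 1 := WithLp.toLp 2 fun _ => 1
  let x : E 2 := a (emb θ 0 e1)
  refine ⟨-x 0 * Real.sin θ + x 1 * Real.cos θ, fun _ => 0, measurable_const, fun e he h0 => ?_⟩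
  have hee : e = e1 := by
    have h1 : ‖e‖ = |e 0| := by
      rw [EuclideanSpace.norm_eq]
      simp [Real.sqrt_sq_eq_abs]
    rw [he, abs_of_pos h0] at h1
    ext i
    fin_cases i
    exact h1.symm
  subst hee
  refine ⟨x 0 * Real.cos θ + x 1 * Real.sin θ, ?_⟩
  show x = emb θ _ _
  have hs := Real.sin_sq_add_cos_sq θ
  ext i
  fin_cases i
  · simp only [emb, ins, e1, zero_add, Fin.zero_eta]
    show x 0 = _
    simp
    linear_combination (-(x 0)) * hs
  · simp only [emb, ins, e1, zero_add, Fin.mk_one]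
    show x 1 = _
    simp
    linear_combination (-(x 1)) * hs

/-- skew products over arbitrary families -/
theorem skew {k m : ℕ} {a : Eu (m + 1) → Eu (m + 1)} {S : Set (sphere (0 : Eu (m + 1)) 1)}
    {K : Set ((Fin k → ℝ) × Eu (m + 1))} (hK : IsClosed K) (h : ContainsSegments a S K) :
    (∀ β : ℝ, 0 < β → FamilyBound a S β → ENNReal.ofReal (k + β) ≤ dimH K) ∧
    (m = 1 → Measurable a → (volume : Measure (Eu (m + 1))).toSphere S ≠ 0 →
      dimH K = ((k + m + 1 : ℕ) : ℝ≥0∞)) := by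
  have hb := big_base hK h
  refine ⟨fun β hβ hB => lower hβ (hB _ hb), fun hm ha hS => ?_⟩
  subst hm
  refine le_antisymm (finrank_le K) ?_
  have h1 := Pool.Agent.H023R3.KS.dim_eq 1 a S (big K) (reducible_two ha) hb
    (pos_iff_ne_zero.2 hS)
  have h5 := lower (k := k) (K := K) (β := (2 : ℕ)) (by positivity) (by
    rw [h1, ENNReal.ofReal_natCast])
  refine le_trans (le_of_eq ?_) h5
  rw [← ENNReal.ofReal_natCast]
  congr 1
  push_cast
  ring

end Pool.Agent.H69.Kk.Pl
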