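import Pool.Agent.H69.Kk.Deg

set_option autoImplicit false
open MeasureTheory Set Filter Topology
open scoped ENNReal

namespace Pool.Agent.H69.Kk.Tile

variable {d : ℕ}

/-- integer vector as a real vector -/
def iv (m : Fin d → ℤ) : Fin d → ℝ := fun i => m i

theorem one_le_volume (X : Set (Fin d → ℝ)) (hX : MeasurableSet X)
    (h : ∀ y : Fin d → ℝ, ∃ m : Fin d → ℤ, y - iv m ∈ X) : 1 ≤ volume X := by
  let box : Set (Fin d → ℝ) := univ.pi fun _ => Ico 0 1
  have mbox : MeasurableSet box := MeasurableSet.univ_pi fun _ => measurableSet_Ico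
  have hbox : volume box = 1 := by
    simp only [box, volume_pi, Measure.pi_pi, Real.volume_Ico]
    simp
  have h1 : box ⊆ ⋃ m : Fin d → ℤ, {y | y ∈ box ∧ y - iv m ∈ X} := fun y hy => by
    obtain ⟨m, hm⟩ := h y
    exact mem_iUnion.2 ⟨m, hy, hm⟩
  have h2 : ∀ m : Fin d → ℤ, volume {y | y ∈ box ∧ y - iv m ∈ X} =
      volume {x | x + iv m ∈ box ∧ x ∈ X} := by
    intro m
    rw [← measure_preimage_add_right volume (iv m) {y | y ∈ box ∧ y - iv m ∈ X}]
    congr 1
    ext x
    simp
  calc (1 : ℝ≥0∞) = volume box := hbox.symm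
    _ ≤ ∑' m : Fin d → ℤ, volume {y | y ∈ box ∧ y - iv m ∈ X} :=
        (measure_mono h1).trans (measure_iUnion_le _)
    _ = ∑' m : Fin d → ℤ, volume {x | x + iv m ∈ box ∧ x ∈ X} := by simp only [h2]
    _ = volume (⋃ m : Fin d → ℤ, {x | x + iv m ∈ box ∧ x ∈ X}) := by
        refine (measure_iUnion ?_ fun m => ?_).symm
        · intro m m' hmm
          refine Set.disjoint_left.2 fun x hx hx' => hmm ?_
          funext i
          have a1 := hx.1 i (mem_univ i)
          have a2 := hx'.1 i (mem_univ i)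
          simp only [iv, Pi.add_apply, mem_Ico] at a1 a2
          have b1 : (m i : ℝ) < m' i + 1 := by linarith
          have b2 : (m' i : ℝ) < m i + 1 := by linarith
          have c1 : m i < m' i + 1 := by exact_mod_cast b1
          have c2 : m' i < m i + 1 := by exact_mod_cast b2
          omega
        · exact (mbox.preimage (measurable_id.add_const (iv m))).inter hX
    _ ≤ volume X := measure_mono (iUnion_subset fun m x hx => hx.2)

theorem per_iv {f : (Fin d → ℝ) → (Fin d → ℝ)} {M : Matrix (Fin d) (Fin d) ℝ}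
    (hper : ∀ v i, f (v + Pi.single i 1) = f v + fun j => M j i) (v : Fin d → ℝ) (m : Fin d → ℤ) :
    f (v + iv m) = f v + M.mulVec (iv m) := by
  have one : ∀ (i : Fin d) (k : ℤ) (v : Fin d → ℝ),
      f (v + Pi.single i (k : ℝ)) = f v + (k : ℝ) • fun j => M j i := by
    intro i k
    have hs : ∀ a b : ℝ, (Pi.single i (a + b) : Fin d → ℝ) = Pi.single i a + Pi.single i b :=
      fun a b => by
        funext j
        simp only [Pi.single_apply, Pi.add_apply]
        split_ifs <;> simp
    induction k using Int.induction_on with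
    | zero => intro v; simp
    | succ k ih =>
      intro v
      push_cast at ih ⊢
      rw [hs, ← add_assoc, hper, ih, add_smul, one_smul, add_assoc]
    | pred k ih =>
      intro v
      have h := hper (v + Pi.single i ((-(k : ℤ) - 1 : ℤ) : ℝ)) i
      rw [add_assoc, ← hs] at h
      have e : (((-(k : ℤ) - 1 : ℤ) : ℝ) + 1) = ((-(k : ℤ) : ℤ) : ℝ) := by push_cast; ring
      rw [e, ih] at h
      rw [eq_comm, ← sub_eq_iff_eq_add] at h
      rw [← h]
      push_cast
      module
  have main : ∀ (s : Finset (Fin d)) (v : Fin d → ℝ),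
      f (v + ∑ i ∈ s, Pi.single i ((m i : ℤ) : ℝ)) = f v + ∑ i ∈ s, ((m i : ℤ) : ℝ) • fun j => M j i := by
    classical
    intro s
    induction s using Finset.induction_on with
    | empty => intro v; simp
    | insert i s hi ih =>
      intro v
      rw [Finset.sum_insert hi, Finset.sum_insert hi, ← add_assoc, ih, one, add_assoc]
  have e1 : iv m = ∑ i, Pi.single i ((m i : ℤ) : ℝ) := by
    rw [Finset.univ_sum_single]; rfl
  have e2 : M.mulVec (iv m) = ∑ i, ((m i : ℤ) : ℝ) • fun j => M j i := by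
    funext j
    simp [Matrix.mulVec, dotProduct, iv, mul_comm]
  rw [e2, ← main, ← e1]

theorem det_le_volume (M : Matrix (Fin d) (Fin d) ℝ) (f : (Fin d → ℝ) → (Fin d → ℝ))
    (hf : Continuous f) (hper : ∀ v i, f (v + Pi.single i 1) = f v + fun j => M j i) :
    ENNReal.ofReal |M.det| ≤ volume (f '' Icc 0 1) := by
  by_cases hM : M.det = 0
  · simp [hM]
  have dec : ∀ v : Fin d → ℝ, ∃ (r : Fin d → ℝ) (m : Fin d → ℤ), r ∈ Icc 0 1 ∧ v = r + iv m :=
    fun v => ⟨fun i => Int.fract (v i), fun i => ⌊v i⌋, ⟨fun i => Int.fract_nonneg _,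
      fun i => (Int.fract_lt_one _).le⟩, by
        funext i
        simp [iv]⟩
  have hdet : LinearMap.det (Matrix.toLin' M) ≠ 0 := by rwa [LinearMap.det_toLin']
  let L : (Fin d → ℝ) ≃L[ℝ] (Fin d → ℝ) :=
    (LinearEquiv.ofIsUnitDet (f := Matrix.toLin' M)
      (v := Pi.basisFun ℝ (Fin d)) (v' := Pi.basisFun ℝ (Fin d)) (by
        rw [LinearMap.det_toMatrix]
        exact isUnit_iff_ne_zero.2 hdet)).toContinuousLinearEquiv
  have hL : ∀ v, L v = M.mulVec v := fun v => by
    simp [L, LinearEquiv.coe_toContinuousLinearEquiv']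
  let g : (Fin d → ℝ) → (Fin d → ℝ) := fun v => f v - L v
  have hg : Continuous g := hf.sub L.continuous
  have gper : ∀ v m, g (v + iv m) = g v := by
    intro v m
    simp only [g]
    rw [per_iv hper, map_add, hL (iv m)]
    abel
  obtain ⟨B, hB⟩ := (isCompact_Icc (a := (0 : Fin d → ℝ)) (b := 1)).exists_bound_of_continuousOn
    hg.continuousOn
  have gb : ∀ v, ‖g v‖ ≤ B := by
    intro v
    obtain ⟨r, m, hr, rfl⟩ := dec v
    rw [gper]
    exact hB r hr
  have hsurj := fun y => Deg.surj L g hg B gb y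
  have hK : IsCompact (f '' Icc 0 1) := isCompact_Icc.image hf
  have hX : MeasurableSet (L ⁻¹' (f '' Icc 0 1)) := hK.isClosed.preimage L.continuous |>.measurableSet
  have h1 := one_le_volume (L ⁻¹' (f '' Icc 0 1)) hX (fun y => by
    obtain ⟨v, hv⟩ := hsurj (L y)
    have hv' : f v = L y := by rw [← hv]; simp [g]
    obtain ⟨r, m, hr, rfl⟩ := dec v
    refine ⟨m, r, hr, ?_⟩
    rw [per_iv hper, ← hL] at hv'
    rw [map_sub, ← hv']
    simp)
  have h2 : (Matrix.toLin' M) '' (L ⁻¹' (f '' Icc 0 1)) ⊆ f '' Icc 0 1 := by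
    rintro _ ⟨x, hx, rfl⟩
    have : (Matrix.toLin' M) x = L x := by rw [hL]; rfl
    rw [this]
    exact hx
  calc ENNReal.ofReal |M.det| = ENNReal.ofReal |LinearMap.det (Matrix.toLin' M)| * 1 := by
        rw [LinearMap.det_toLin', mul_one]
    _ ≤ ENNReal.ofReal |LinearMap.det (Matrix.toLin' M)| * volume (L ⁻¹' (f '' Icc 0 1)) := by
        gcongr
    _ = volume ((Matrix.toLin' M) '' (L ⁻¹' (f '' Icc 0 1))) :=
        (Measure.addHaar_image_linearMap volume _ _).symm
    _ ≤ volume (f '' Icc 0 1) := measure_mono h2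

end Pool.Agent.H69.Kk.Tile
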