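import Mathlib

set_option autoImplicit false
open Set Filter Topology unitInterval

namespace Pool.Agent.H69.Kk.Top

instance : LocallyPathConnectedSpace I :=
  (isQuotientMap_projIcc (h := zero_le_one (α := ℝ))).locallyPathConnectedSpace

/-- continuous maps from the square to the circle have continuous real lifts -/
theorem lift_square (h : C(I × I, AddCircle (1 : ℝ))) :
    ∃ u : C(I × I, ℝ), ∀ x, ((u x : ℝ) : AddCircle (1 : ℝ)) = h x := by
  have cov : IsCoveringMap ((↑) : ℝ → AddCircle (1 : ℝ)) := AddCircle.isCoveringMap_coe (1 : ℝ)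
  let γ : C(I, AddCircle (1 : ℝ)) := h.comp ((ContinuousMap.const I (0 : I)).prodMk
    (ContinuousMap.id I))
  obtain ⟨e, he⟩ := QuotientAddGroup.mk_surjective (γ 0)
  let f : C(I, ℝ) := cov.liftPath γ e he.symm
  have hf : ∀ a, h (0, a) = ((f a : ℝ) : AddCircle (1 : ℝ)) := fun a =>
    (congr_fun (cov.liftPath_lifts γ e he.symm) a).symm
  exact ⟨cov.liftHomotopy h f hf, fun x => congr_fun (cov.liftHomotopy_lifts h f hf) x⟩

variable {X : Type*} [TopologicalSpace X]

/-- `M` separates `F` from `G`: no path from `F` to `G` avoids `M`. -/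
def Sep (M F G : Set X) : Prop := ∀ x ∈ F, ∀ y ∈ G, ¬ JoinedIn Mᶜ x y

theorem Sep.exists_open [LocallyPathConnectedSpace X] {M F G : Set X} (hM : IsClosed M)
    (h : Sep M F G) : ∃ U V : Set X, IsOpen U ∧ IsOpen V ∧ Disjoint U V ∧ U ∪ V = Mᶜ ∧
      F \ M ⊆ U ∧ G \ M ⊆ V := by
  let U : Set X := ⋃ y ∈ F, pathComponentIn Mᶜ y
  have hU : IsOpen U := isOpen_biUnion fun y _ => hM.isOpen_compl.pathComponentIn y
  have hUM : U ⊆ Mᶜ := iUnion₂_subset fun y _ => pathComponentIn_subset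
  let V : Set X := ⋃ y ∈ Mᶜ \ U, pathComponentIn Mᶜ y
  have hV : IsOpen V := isOpen_biUnion fun y _ => hM.isOpen_compl.pathComponentIn y
  have hVM : V ⊆ Mᶜ := iUnion₂_subset fun y _ => pathComponentIn_subset
  have hd : Disjoint U V := by
    rw [Set.disjoint_left]
    intro z hz hz'
    obtain ⟨y, hy, hyz⟩ := mem_iUnion₂.1 hz
    obtain ⟨w, hw, hwz⟩ := mem_iUnion₂.1 hz'
    exact hw.2 (mem_iUnion₂.2 ⟨y, hy, JoinedIn.trans hyz (JoinedIn.symm hwz)⟩)
  refine ⟨U, V, hU, hV, hd, ?_, ?_, ?_⟩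
  · refine Subset.antisymm (union_subset hUM hVM) fun z hz => ?_
    by_cases h' : z ∈ U
    · exact Or.inl h'
    · exact Or.inr (mem_iUnion₂.2 ⟨z, ⟨hz, h'⟩, mem_pathComponentIn_self hz⟩)
  · intro z hz
    exact mem_iUnion₂.2 ⟨z, hz.1, mem_pathComponentIn_self hz.2⟩
  · intro z hz
    refine mem_iUnion₂.2 ⟨z, ⟨hz.2, fun h' => ?_⟩, mem_pathComponentIn_self hz.2⟩
    obtain ⟨y, hy, hyz⟩ := mem_iUnion₂.1 h'
    exact h y hy z hz.1 hyz

theorem sep_of_open {M F G U V : Set X} (hU : IsOpen U) (hV : IsOpen V) (hd : Disjoint U V)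
    (hUV : Mᶜ ⊆ U ∪ V) (hF : F ⊆ U) (hG : G ⊆ V) : Sep M F G := by
  intro x hx y hy hj
  obtain ⟨γ, hγ⟩ := hj
  have hc : IsPreconnected (range γ) := isPreconnected_range γ.continuous
  obtain ⟨z, -, hz⟩ := hc U V hU hV (fun z hz => by
    obtain ⟨t, rfl⟩ := hz
    exact hUV (hγ t)) ⟨x, ⟨0, γ.source⟩, hF hx⟩ ⟨y, ⟨1, γ.target⟩, hG hy⟩
  exact Set.disjoint_left.1 hd hz.1 hz.2

theorem Sep.meets [LocallyPathConnectedSpace X] {M F G C : Set X} (hM : IsClosed M)
    (h : Sep M F G) (hC : IsPreconnected C) (hF : (C ∩ F).Nonempty) (hG : (C ∩ G).Nonempty) :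
    (C ∩ M).Nonempty := by
  by_contra hne
  rw [Set.not_nonempty_iff_eq_empty] at hne
  have hCM : C ⊆ Mᶜ := fun z hz hz' => by
    have : z ∈ C ∩ M := ⟨hz, hz'⟩
    rw [hne] at this
    exact this
  obtain ⟨U, V, hU, hV, hd, hUV, hFU, hGV⟩ := h.exists_open hM
  obtain ⟨x, hx, hx'⟩ := hF
  obtain ⟨y, hy, hy'⟩ := hG
  obtain ⟨z, -, hz⟩ := hC U V hU hV (by rw [hUV]; exact hCM) ⟨x, hx, hFU ⟨hx', hCM hx⟩⟩
    ⟨y, hy, hGV ⟨hy', hCM hy⟩⟩
  exact Set.disjoint_left.1 hd hz.1 hz.2

theorem int_const {S : Set X} (hS : IsPreconnected S) {φ : X → ℝ} (hφ : ContinuousOn φ S)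
    (hz : ∀ x ∈ S, ((φ x : ℝ) : AddCircle (1 : ℝ)) = 0) {x y : X} (hx : x ∈ S) (hy : y ∈ S) :
    φ x = φ y := by
  have key : ∀ x ∈ S, ∀ y ∈ S, ¬ φ x < φ y := by
    intro x hx y hy hlt
    have h0 : ∀ z ∈ S, ∃ k : ℤ, φ z = k := fun z hz' => by
      obtain ⟨k, hk⟩ := (AddCircle.coe_eq_zero_iff (1 : ℝ)).1 (hz z hz')
      exact ⟨k, by rw [← hk]; simp⟩
    obtain ⟨k, hk⟩ := h0 x hx
    obtain ⟨l, hl⟩ := h0 y hy
    have hkl : k < l := by
      rw [hk, hl] at hlt
      exact_mod_cast hlt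
    have hkl' : (k : ℝ) + 1 ≤ l := by exact_mod_cast hkl
    obtain ⟨z, hz1, hz2⟩ := hS.intermediate_value hx hy hφ
      (show φ x + 1 / 2 ∈ Icc (φ x) (φ y) from ⟨by linarith, by rw [hk, hl]; linarith⟩)
    obtain ⟨m, hm⟩ := h0 z hz1
    rw [hm, hk] at hz2
    have h1 : (2 * m : ℤ) = 2 * k + 1 := by
      have : (2 : ℝ) * m = 2 * k + 1 := by linarith
      exact_mod_cast this
    omega
  exact le_antisymm (not_lt.1 (key y hy x hx)) (not_lt.1 (key x hx y hy))

/-- continuous circle valued maps lift -/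
def Lifts (X : Type*) [TopologicalSpace X] : Prop :=
  ∀ h : C(X, AddCircle (1 : ℝ)), ∃ u : C(X, ℝ), ∀ x, ((u x : ℝ) : AddCircle (1 : ℝ)) = h x

/-- Janiszewski: two disjoint closed sets which do not separate have a union which does not. -/
theorem janiszewski [LocallyPathConnectedSpace X] [NormalSpace X] (hL : Lifts X)
    {A A' F G : Set X} (hA : IsClosed A) (hA' : IsClosed A') (hAA : Disjoint A A')
    (hF : IsPreconnected F) (hG : IsPreconnected G) (hFA : Disjoint F (A ∪ A'))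
    (hGA : Disjoint G (A ∪ A')) (h : Sep (A ∪ A') F G) : Sep A F G ∨ Sep A' F G := by
  classical
  by_contra hcon
  rw [not_or] at hcon
  obtain ⟨h1, h2⟩ := hcon
  unfold Sep at h1 h2
  push Not at h1 h2
  obtain ⟨x1, hx1, y1, hy1, γ1, hγ1⟩ := h1
  obtain ⟨x2, hx2, y2, hy2, γ2, hγ2⟩ := h2
  obtain ⟨U, V, hU, hV, hd, hUV, hFU, hGV⟩ := h.exists_open (hA.union hA')
  have hFU' : F ⊆ U := fun z hz => hFU ⟨hz, fun h' => Set.disjoint_left.1 hFA hz h'⟩
  have hGV' : G ⊆ V := fun z hz => hGV ⟨hz, fun h' => Set.disjoint_left.1 hGA hz h'⟩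
  obtain ⟨θ, hθA, hθA', hθ⟩ := exists_continuous_zero_one_of_isClosed hA hA' hAA
  have hVA : ∀ z ∈ V, z ∉ A ∪ A' := fun z hz => by
    have : z ∈ (A ∪ A')ᶜ := by rw [← hUV]; exact Or.inr hz
    exact this
  have hcases : ∀ z, z ∈ U ∨ z ∈ V ∨ z ∈ A ∨ z ∈ A' := by
    intro z
    by_cases h' : z ∈ A ∪ A'
    · exact Or.inr (Or.inr h')
    · have : z ∈ (A ∪ A')ᶜ := h'
      rw [← hUV] at this
      exact this.elim Or.inl fun h => Or.inr (Or.inl h)
  let s : X → ℝ := fun x => if x ∈ V then -(θ x / 2) else θ x / 2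
  let s' : X → ℝ := fun x => if x ∈ V then 1 - θ x / 2 else θ x / 2
  have hsU : ∀ z ∈ U, s z = θ z / 2 ∧ s' z = θ z / 2 := fun z hz => by
    have : z ∉ V := fun h' => Set.disjoint_left.1 hd hz h'
    simp [s, s', this]
  have hsV : ∀ z ∈ V, s z = -(θ z / 2) ∧ s' z = 1 - θ z / 2 := fun z hz => by
    simp [s, s', hz]
  have hθc : Continuous θ := θ.continuous
  have hs : ∀ z, z ∉ A' → ContinuousAt s z := by
    intro z hz
    rcases hcases z with h' | h' | h' | h'
    · have e : s =ᶠ[𝓝 z] fun x => θ x / 2 := by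
        filter_upwards [hU.mem_nhds h'] with x hx using (hsU x hx).1
      exact (hθc.div_const 2).continuousAt.congr e.symm
    · have e : s =ᶠ[𝓝 z] fun x => -(θ x / 2) := by
        filter_upwards [hV.mem_nhds h'] with x hx using (hsV x hx).1
      exact (hθc.div_const 2).neg.continuousAt.congr e.symm
    · have hz0 : θ z = 0 := hθA h'
      have hzs : s z = 0 := by
        have : z ∉ V := fun h'' => hVA z h'' (Or.inl h')
        simp [s, this, hz0]
      have ht : Tendsto (fun x => θ x / 2) (𝓝 z) (𝓝 0) := by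
        have := (hθc.div_const 2).continuousAt (x := z)
        rwa [ContinuousAt, hz0, zero_div] at this
      rw [ContinuousAt, hzs]
      refine squeeze_zero_norm (fun x => ?_) ht
      rw [Real.norm_eq_abs]
      have := (hθ x).1
      by_cases hx : x ∈ V
      · rw [(hsV x hx).1, abs_neg, abs_of_nonneg (by linarith)]
      · simp only [s, hx, if_false]
        rw [abs_of_nonneg (by linarith)]
    · exact absurd h' hz
  have hs' : ∀ z, z ∉ A → ContinuousAt s' z := by
    intro z hz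
    rcases hcases z with h' | h' | h' | h'
    · have e : s' =ᶠ[𝓝 z] fun x => θ x / 2 := by
        filter_upwards [hU.mem_nhds h'] with x hx using (hsU x hx).2
      exact (hθc.div_const 2).continuousAt.congr e.symm
    · have e : s' =ᶠ[𝓝 z] fun x => 1 - θ x / 2 := by
        filter_upwards [hV.mem_nhds h'] with x hx using (hsV x hx).2
      exact (continuous_const.sub (hθc.div_const 2)).continuousAt.congr e.symm
    · exact absurd h' hz
    · have hz0 : θ z = 1 := hθA' h'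
      have hzs : s' z = 1 / 2 := by
        have : z ∉ V := fun h'' => hVA z h'' (Or.inr h')
        simp [s', this, hz0]
      have ht : Tendsto (fun x => (1 - θ x) / 2) (𝓝 z) (𝓝 0) := by
        have := ((continuous_const.sub hθc).div_const 2).continuousAt (x := z) (f := fun x => ((1:ℝ) - θ x) / 2)
        rwa [ContinuousAt, hz0, sub_self, zero_div] at this
      rw [ContinuousAt, hzs, ← tendsto_sub_nhds_zero_iff]
      refine squeeze_zero_norm (fun x => ?_) ht
      rw [Real.norm_eq_abs]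
      have := (hθ x).2
      by_cases hx : x ∈ V
      · rw [(hsV x hx).2, abs_of_nonneg (by linarith)]
        linarith
      · simp only [s', hx, if_false]
        rw [abs_of_nonpos (by linarith)]
        linarith
  have hss : ∀ z, ((s z : ℝ) : AddCircle (1 : ℝ)) = ((s' z : ℝ) : AddCircle (1 : ℝ)) := by
    intro z
    by_cases hz : z ∈ V
    · rw [(hsV z hz).1, (hsV z hz).2]
      have e : (1 : ℝ) - θ z / 2 = -(θ z / 2) + 1 := by ring
      rw [e, AddCircle.coe_add, AddCircle.coe_period, add_zero]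
    · simp [s, s', hz]
  have hcont : Continuous fun z => ((s z : ℝ) : AddCircle (1 : ℝ)) := by
    rw [continuous_iff_continuousAt]
    intro z
    by_cases hz : z ∈ A'
    · have hz' : z ∉ A := fun h' => Set.disjoint_left.1 hAA h' hz
      have e : (fun z => ((s z : ℝ) : AddCircle (1 : ℝ))) =
          fun z => ((s' z : ℝ) : AddCircle (1 : ℝ)) := funext hss
      rw [e]
      exact (AddCircle.continuous_mk' (1 : ℝ)).continuousAt.comp (hs' z hz')
    · exact (AddCircle.continuous_mk' (1 : ℝ)).continuousAt.comp (hs z hz)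
  obtain ⟨u, hu⟩ := hL ⟨_, hcont⟩
  have hu1 : ∀ z, ((u z - s z : ℝ) : AddCircle (1 : ℝ)) = 0 := fun z => by
    rw [AddCircle.coe_sub, hu z]
    simp
  have hu2 : ∀ z, ((u z - s' z : ℝ) : AddCircle (1 : ℝ)) = 0 := fun z => by
    rw [AddCircle.coe_sub, hu z, ← hss z]
    simp
  have c1 : ∀ {S : Set X}, IsPreconnected S → S ⊆ A'ᶜ → ∀ {x y : X}, x ∈ S → y ∈ S →
      u x - s x = u y - s y := fun hS hSA x y hx hy =>
    int_const hS (φ := fun z => u z - s z)
      (u.continuous.continuousOn.sub fun z hz => (hs z (hSA hz)).continuousWithinAt)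
      (fun z _ => hu1 z) hx hy
  have c2 : ∀ {S : Set X}, IsPreconnected S → S ⊆ Aᶜ → ∀ {x y : X}, x ∈ S → y ∈ S →
      u x - s' x = u y - s' y := fun hS hSA x y hx hy =>
    int_const hS (φ := fun z => u z - s' z)
      (u.continuous.continuousOn.sub fun z hz => (hs' z (hSA hz)).continuousWithinAt)
      (fun z _ => hu2 z) hx hy
  have e1 := c1 hF (fun z hz h' => Set.disjoint_left.1 hFA hz (Or.inr h')) hx1 hx2
  have e2 := c1 hG (fun z hz h' => Set.disjoint_left.1 hGA hz (Or.inr h')) hy1 hy2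
  have e3 := c1 (isPreconnected_range γ2.continuous) (by rintro _ ⟨t, rfl⟩; exact hγ2 t)
    ⟨0, γ2.source⟩ ⟨1, γ2.target⟩
  have e4 := c2 (isPreconnected_range γ1.continuous) (by rintro _ ⟨t, rfl⟩; exact hγ1 t)
    ⟨0, γ1.source⟩ ⟨1, γ1.target⟩
  rw [(hsU x1 (hFU' hx1)).2, (hsV y1 (hGV' hy1)).2] at e4
  rw [(hsU x1 (hFU' hx1)).1, (hsU x2 (hFU' hx2)).1] at e1
  rw [(hsV y1 (hGV' hy1)).1, (hsV y2 (hGV' hy2)).1] at e2
  rw [(hsU x2 (hFU' hx2)).1, (hsV y2 (hGV' hy2)).1] at e3
  linarith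

/-- a closed separator contains a connected closed separator -/
theorem minimal_sep [LocallyPathConnectedSpace X] [NormalSpace X] [PathConnectedSpace X]
    (hL : Lifts X) {L F G : Set X} (hLc : IsClosed L)
    (hF : IsConnected F) (hG : IsConnected G) (hFL : Disjoint F L) (hGL : Disjoint G L)
    (h : Sep L F G) : ∃ M ⊆ L, IsClosed M ∧ IsConnected M ∧ Sep M F G := by
  obtain ⟨M, hML, hM⟩ := zorn_superset_nonempty {M : Set X | IsClosed M ∧ Sep M F G} (by
    intro c hc hchain hne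
    refine ⟨⋂₀ c, ⟨isClosed_sInter fun M hM => (hc hM).1, ?_⟩, fun M hM => sInter_subset_of_mem hM⟩
    intro x hx y hy hj
    obtain ⟨γ, hγ⟩ := hj
    have hne' : Nonempty c := hne.to_subtype
    obtain ⟨M, hM⟩ := (isCompact_range γ.continuous).elim_directed_cover
      (fun M : c => (M : Set X)ᶜ) (fun M => (hc M.2).1.isOpen_compl) (by
        rintro _ ⟨t, rfl⟩
        have := hγ t
        rw [mem_compl_iff, mem_sInter] at this
        push Not at this
        obtain ⟨M, hM, hM'⟩ := this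
        exact mem_iUnion.2 ⟨⟨M, hM⟩, hM'⟩) (by
        intro M N
        rcases hchain.total M.2 N.2 with h' | h'
        · exact ⟨M, subset_rfl, compl_subset_compl.2 h'⟩
        · exact ⟨N, compl_subset_compl.2 h', subset_rfl⟩)
    exact (hc M.2).2 x hx y hy ⟨γ, fun t => hM ⟨t, rfl⟩⟩) L ⟨hLc, h⟩
  have hFM : Disjoint F M := hFL.mono_right hML
  have hGM : Disjoint G M := hGL.mono_right hML
  refine ⟨M, hML, hM.prop.1, ⟨?_, ?_⟩, hM.prop.2⟩
  · by_contra hne
    rw [Set.not_nonempty_iff_eq_empty] at hne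
    obtain ⟨x, hx⟩ := hF.nonempty
    obtain ⟨y, hy⟩ := hG.nonempty
    refine hM.prop.2 x hx y hy ?_
    rw [hne, compl_empty, joinedIn_univ]
    exact PathConnectedSpace.joined x y
  · rw [isPreconnected_closed_iff]
    intro t t' ht ht' hMt h1 h2
    by_contra hne
    have hd : Disjoint (M ∩ t) (M ∩ t') := by
      rw [Set.disjoint_left]
      exact fun z hz hz' => hne ⟨z, hz.1, hz.2, hz'.2⟩
    have hu : (M ∩ t) ∪ (M ∩ t') = M := by
      rw [← inter_union_distrib_left]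
      exact inter_eq_left.2 hMt
    have hmin : ∀ N ⊆ M, IsClosed N → Sep N F G → M ⊆ N := fun N hN hNc hNs =>
      hM.2 ⟨hNc, hNs⟩ hN
    rcases janiszewski hL (hM.prop.1.inter ht) (hM.prop.1.inter ht') hd hF.isPreconnected
      hG.isPreconnected (by rw [hu]; exact hFM) (by rw [hu]; exact hGM)
      (by rw [hu]; exact hM.prop.2) with h' | h'
    · have := hmin _ inter_subset_left (hM.prop.1.inter ht) h'
      obtain ⟨z, hz⟩ := h2
      exact hne ⟨z, hz.1, (this hz.1).2, hz.2⟩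
    · have := hmin _ inter_subset_left (hM.prop.1.inter ht') h'
      obtain ⟨z, hz⟩ := h1
      exact hne ⟨z, hz.1, hz.2, (this hz.1).2⟩

end Pool.Agent.H69.Kk.Top
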