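import Pool.Agent.H69.Kk.Planar

set_option autoImplicit false
open Set Filter Topology MeasureTheory unitInterval
open Pool.Agent.H69.Kk.Top
open scoped Pointwise

namespace Pool.Agent.H69.Kk.Pl

instance : PathConnectedSpace I :=
  isPathConnected_iff_pathConnectedSpace.1
    ((convex_Icc (0 : ℝ) 1).isPathConnected ⟨0, left_mem_Icc.2 zero_le_one⟩)

theorem no_cut (m x y : I × I) (hx : x ≠ m) (hy : y ≠ m) : JoinedIn {m}ᶜ x y := by
  have hor : ∀ b : I, b ≠ m.2 → ∀ a a' : I, JoinedIn {m}ᶜ (a, b) (a', b) := by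
    intro b hb a a'
    have h1 : Continuous fun s : I => (s, b) := by fun_prop
    refine (((isPathConnected_univ (X := I)).image h1).joinedIn (a, b) ⟨a, trivial, rfl⟩ (a', b)
      ⟨a', trivial, rfl⟩).mono ?_
    rintro _ ⟨s, -, rfl⟩ h
    have h' : (s, b) = m := h
    exact hb (by rw [← h'])
  have ver : ∀ a : I, a ≠ m.1 → ∀ b b' : I, JoinedIn {m}ᶜ (a, b) (a, b') := by
    intro a ha b b'
    have h1 : Continuous fun s : I => (a, s) := by fun_prop
    refine (((isPathConnected_univ (X := I)).image h1).joinedIn (a, b) ⟨b, trivial, rfl⟩ (a, b')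
      ⟨b', trivial, rfl⟩).mono ?_
    rintro _ ⟨s, -, rfl⟩ h
    have h' : (a, s) = m := h
    exact ha (by rw [← h'])
  obtain ⟨s, hs⟩ := exists_ne m.1
  obtain ⟨r, hr⟩ := exists_ne m.2
  have key : ∀ z : I × I, z ≠ m → JoinedIn {m}ᶜ z (s, r) := by
    rintro ⟨a, b⟩ hz
    by_cases hb : b = m.2
    · have ha : a ≠ m.1 := fun ha => hz (Prod.ext ha hb)
      exact (ver a ha b r).trans (hor r hr a s)
    · exact (hor b hb a s).trans (ver s hs b r)
  exact (key x hx).trans (key y hy).symm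

/-- the image of the box under `a + t id` -/
def Img {d : ℕ} (a : (Fin d → ℝ) → Fin d → ℝ) (p q : Fin d → ℝ) (t : ℝ) : Set (Fin d → ℝ) :=
  (fun v => a v + t • v) '' Icc p q

theorem Img_compact {d : ℕ} {a : (Fin d → ℝ) → Fin d → ℝ} {p q : Fin d → ℝ}
    (ha : ContinuousOn a (Icc p q)) (t : ℝ) : IsCompact (Img a p q t) :=
  isCompact_Icc.image_of_continuousOn (ha.add (by fun_prop))

/-- the box as a square -/
def box (p q : Fin 2 → ℝ) (x : I × I) : Fin 2 → ℝ :=
  ![p 0 + x.1 * (q 0 - p 0), p 1 + x.2 * (q 1 - p 1)]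

theorem box_continuous (p q : Fin 2 → ℝ) : Continuous (box p q) := by
  refine continuous_pi fun i => ?_
  fin_cases i
  · show Continuous fun x : I × I => p 0 + x.1 * (q 0 - p 0)
    fun_prop
  · show Continuous fun x : I × I => p 1 + x.2 * (q 1 - p 1)
    fun_prop

theorem box_mem {p q : Fin 2 → ℝ} (h : ∀ i, p i < q i) (x : I × I) : box p q x ∈ Icc p q := by
  have h0 := h 0
  have h1 := h 1
  have a1 := x.1.2.1
  have a2 := x.1.2.2
  have b1 := x.2.2.1
  have b2 := x.2.2.2
  constructor <;> intro i <;> fin_cases i <;> simp only [box, Fin.zero_eta, Fin.mk_one,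
    Matrix.cons_val_zero, Matrix.cons_val_one]
  · nlinarith
  · nlinarith
  · nlinarith
  · nlinarith

theorem box_surj {p q : Fin 2 → ℝ} (h : ∀ i, p i < q i) {v : Fin 2 → ℝ} (hv : v ∈ Icc p q) :
    ∃ x, box p q x = v := by
  have h0 := h 0
  have h1 := h 1
  have e : ∀ i, (v i - p i) / (q i - p i) ∈ Icc (0 : ℝ) 1 := fun i => by
    have := h i
    have h2 := hv.1 i
    have h3 := hv.2 i
    exact ⟨div_nonneg (by linarith) (by linarith), (div_le_one (by linarith)).2 (by linarith)⟩
  refine ⟨(⟨_, e 0⟩, ⟨_, e 1⟩), ?_⟩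
  funext i
  fin_cases i
  · show p 0 + (v 0 - p 0) / (q 0 - p 0) * (q 0 - p 0) = v 0
    rw [div_mul_cancel₀ _ (by linarith)]
    ring
  · show p 1 + (v 1 - p 1) / (q 1 - p 1) * (q 1 - p 1) = v 1
    rw [div_mul_cancel₀ _ (by linarith)]
    ring

theorem box_inj {p q : Fin 2 → ℝ} (h : ∀ i, p i < q i) : Function.Injective (box p q) := by
  rintro ⟨a, b⟩ ⟨c, e⟩ hxy
  have h0 := congrFun hxy 0
  have h1 := congrFun hxy 1
  simp only [box, Matrix.cons_val_zero, Matrix.cons_val_one] at h0 h1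
  have k0 := h 0
  have k1 := h 1
  have e0 : (a : ℝ) = c := mul_right_cancel₀ (b := q 0 - p 0) (by linarith) (by linarith)
  have e1 : (b : ℝ) = e := mul_right_cancel₀ (b := q 1 - p 1) (by linarith) (by linarith)
  exact Prod.ext (Subtype.ext e0) (Subtype.ext e1)

/-- pairs -/
def pr (z : Fin 2 → ℝ) : ℝ × ℝ := (z 0, z 1)

theorem pr_continuous : Continuous pr := by unfold pr; fun_prop

theorem pr_inj : Function.Injective pr := fun x y h => by
  have h0 := congrArg Prod.fst h
  have h1 := congrArg Prod.snd h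
  funext i
  fin_cases i
  · exact h0
  · exact h1

theorem pr_null {S : Set (Fin 2 → ℝ)} (h : volume S = 0) : volume (pr '' S) = 0 := by
  have h1 := volume_preserving_finTwoArrow ℝ
  have e : pr '' S = (MeasurableEquiv.finTwoArrow (α := ℝ)).symm ⁻¹' S := by
    have : pr = ⇑(MeasurableEquiv.finTwoArrow (α := ℝ)) := by
      funext z
      rfl
    rw [this, MeasurableEquiv.image_eq_preimage_symm]
  rw [e]
  exact (h1.symm _).measure_preimage_equiv S |>.trans h

theorem const_case {d : ℕ} {p q : Fin d → ℝ} (h : ∀ i, p i < q i) (C : Fin d → ℝ) {k : ℝ}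
    (hk : k ≠ 0) : volume ((fun v : Fin d → ℝ => C + k • v) '' Icc p q) ≠ 0 := by
  have e : (fun v : Fin d → ℝ => C + k • v) '' Icc p q = (fun x => C + x) '' (k • Icc p q) := by
    rw [← Set.image_smul, image_image]
  rw [e, Set.image_add_left, measure_preimage_add, Measure.addHaar_smul]
  refine mul_ne_zero ?_ ?_
  · rw [Ne, ENNReal.ofReal_eq_zero, not_le]
    positivity
  · rw [Real.volume_Icc_pi]
    refine Finset.prod_ne_zero_iff.2 fun i _ => ?_
    rw [Ne, ENNReal.ofReal_eq_zero, not_le]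
    have := h i
    linarith

/-- **Continuous selections over rectangles of slopes**: at most two slices are null. -/
theorem two {a : (Fin 2 → ℝ) → Fin 2 → ℝ} {p q : Fin 2 → ℝ} (hpq : ∀ i, p i < q i)
    (ha : ContinuousOn a (Icc p q)) {t0 t1 t : ℝ} (h01 : t0 ≠ t1) (ht0 : t ≠ t0) (ht1 : t ≠ t1)
    (h0 : volume (Img a p q t0) = 0) (h1 : volume (Img a p q t1) = 0) :
    volume (Img a p q t) ≠ 0 := by
  have hac : Continuous fun x => a (box p q x) :=
    ha.comp_continuous (box_continuous p q) (box_mem hpq)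
  let F : ℝ → I × I → ℝ × ℝ := fun s x => pr (a (box p q x) + s • box p q x)
  have hF : ∀ s, Continuous (F s) := fun s =>
    pr_continuous.comp (hac.add ((box_continuous p q).const_smul s))
  have hFr : ∀ s, range (F s) = pr '' Img a p q s := by
    intro s
    ext z
    constructor
    · rintro ⟨x, rfl⟩
      exact ⟨_, ⟨box p q x, box_mem hpq x, rfl⟩, rfl⟩
    · rintro ⟨_, ⟨v, hv, rfl⟩, rfl⟩
      obtain ⟨x, rfl⟩ := box_surj hpq hv
      exact ⟨x, rfl⟩
  have hD : Function.Injective fun x => F t1 x - F t0 x := by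
    intro x y hxy
    have e : ∀ x, F t1 x - F t0 x = (t1 - t0) • pr (box p q x) := fun x => by
      simp only [F, pr, Pi.add_apply, Pi.smul_apply, smul_eq_mul]
      refine Prod.ext ?_ ?_
      · simp only [Prod.fst_sub, Prod.smul_fst, smul_eq_mul]; ring
      · simp only [Prod.snd_sub, Prod.smul_snd, smul_eq_mul]; ring
    simp only [e] at hxy
    exact box_inj hpq (pr_inj (smul_right_injective _ (sub_ne_zero.2 h01.symm) hxy))
  have hgc : ∃ x y, F t1 x ≠ F t1 y := by
    by_contra hcon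
    push Not at hcon
    have hC : ∀ v ∈ Icc p q, a v + t1 • v = a p + t1 • p := fun v hv => by
      obtain ⟨x, rfl⟩ := box_surj hpq hv
      obtain ⟨y, hy⟩ := box_surj hpq (left_mem_Icc.2 fun i => (hpq i).le)
      have := pr_inj (hcon x y)
      rw [hy] at this
      exact this
    have e : Img a p q t0 = (fun v : Fin 2 → ℝ => (a p + t1 • p) + (t0 - t1) • v) '' Icc p q := by
      refine image_congr fun v hv => ?_
      rw [← hC v hv]
      module
    rw [e] at h0
    exact const_case hpq _ (sub_ne_zero.2 h01) h0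
  obtain ⟨P, R, hPc, hPc', hRc, hRc', hprod, u, hu, u', hu', w, hw, w', hw', hdt⟩ :=
    planar lift_square no_cut (hF t0) (hF t1) hD (by rw [hFr]; exact pr_null h0)
      (by rw [hFr]; exact pr_null h1) hgc
  -- the sum set
  let mk : ℝ × ℝ → Fin 2 → ℝ := fun z => ![z.1, z.2]
  have hmk : Continuous mk := by
    refine continuous_pi fun i => ?_
    fin_cases i
    · exact continuous_fst
    · exact continuous_snd
  have hmkpr : ∀ z, mk (pr z) = z := fun z => by
    funext i
    fin_cases i <;> rfl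
  have h10 : t1 - t0 ≠ 0 := sub_ne_zero.2 h01.symm
  set α : ℝ := (t1 - t) / (t1 - t0) with hα
  set β : ℝ := (t - t0) / (t1 - t0) with hβ
  have hα0 : α ≠ 0 := div_ne_zero (sub_ne_zero.2 ht1.symm) h10
  have hβ0 : β ≠ 0 := div_ne_zero (sub_ne_zero.2 ht0) h10
  have hab : α + β = 1 := by rw [hα, hβ]; field_simp; ring
  have habt : α * t0 + β * t1 = t := by rw [hα, hβ]; field_simp; ring
  let A : Fin 2 → Set (Fin 2 → ℝ) := ![(fun z => α • mk z) '' P, (fun z => β • mk z) '' R]
  have hA : ∀ i, IsCompact (A i) := by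
    intro i
    fin_cases i
    · exact hPc.image (hmk.const_smul α)
    · exact hRc.image (hmk.const_smul β)
  have hA' : ∀ i, IsConnected (A i) := by
    intro i
    fin_cases i
    · exact hPc'.image _ (hmk.const_smul α).continuousOn
    · exact hRc'.image _ (hmk.const_smul β).continuousOn
  have hx : ∀ i, (![α • mk u, β • mk w] : Fin 2 → Fin 2 → ℝ) i ∈ A i := by
    intro i
    fin_cases i
    · exact ⟨u, hu, rfl⟩
    · exact ⟨w, hw, rfl⟩
  have hy : ∀ i, (![α • mk u', β • mk w'] : Fin 2 → Fin 2 → ℝ) i ∈ A i := by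
    intro i
    fin_cases i
    · exact ⟨u', hu', rfl⟩
    · exact ⟨w', hw', rfl⟩
  have hb := Cont.continua A hA hA' _ _ hx hy
  have hsub : Cont.sumset A ⊆ Img a p q t := by
    rintro _ ⟨z, hz, rfl⟩
    obtain ⟨z0, hz0, e0⟩ := hz 0
    obtain ⟨z1, hz1, e1⟩ := hz 1
    obtain ⟨v, hv0, hv1⟩ := hprod z0 hz0 z1 hz1
    refine ⟨box p q v, box_mem hpq v, ?_⟩
    rw [Fin.sum_univ_two, ← e0, ← e1, ← hv0, ← hv1]
    simp only [F, hmkpr]
    rw [← habt]
    have : a (box p q v) = (α + β) • a (box p q v) := by rw [hab, one_smul]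
    conv_lhs => rw [this]
    module
  intro h0'
  have h2 := measure_mono_null hsub h0'
  rw [h2, nonpos_iff_eq_zero, ENNReal.ofReal_eq_zero] at hb
  have h3 : (Cont.mat fun i => (![α • mk u', β • mk w'] : Fin 2 → Fin 2 → ℝ) i -
      (![α • mk u, β • mk w] : Fin 2 → Fin 2 → ℝ) i).det = α * β * dt u u' w w' := by
    rw [Matrix.det_fin_two]
    simp only [Cont.mat, mk, dt, Matrix.cons_val_zero, Matrix.cons_val_one, Pi.sub_apply,
      Pi.smul_apply, smul_eq_mul]
    ring
  rw [h3] at hb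
  have h4 : α * β * dt u u' w w' ≠ 0 := mul_ne_zero (mul_ne_zero hα0 hβ0) hdt
  exact h4 (abs_eq_zero.1 (le_antisymm hb (abs_nonneg _)))

end Pool.Agent.H69.Kk.Pl
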